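import Mathlib

/-!
# From averages to a positive proportion
-/

set_option autoImplicit false

open Finset

namespace Pool.Agent.Run7.h756.PH

lemma mul_pow_le (m : ℕ) (a b : ℝ) (ha : 0 ≤ a) (hb : 0 ≤ b) : a * b ^ m ≤ a ^ (m + 1) + b ^ (m + 1) := by
  rcases le_total a b with h | h
  · calc a * b ^ m ≤ b * b ^ m := mul_le_mul_of_nonneg_right h (pow_nonneg hb m)
      _ = b ^ (m + 1) := by ring
      _ ≤ _ := le_add_of_nonneg_left (pow_nonneg ha _)
  · calc a * b ^ m ≤ a * a ^ m := mul_le_mul_of_nonneg_left (pow_le_pow_left₀ hb h m) ha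
      _ = a ^ (m + 1) := by ring
      _ ≤ _ := le_add_of_nonneg_right (pow_nonneg hb _)

open Classical in
theorem abs_lemma (m : ℕ) (c0 C : ℝ) (hc0 : 0 < c0) (hC : 0 < C) : ∃ ρ0 > (0 : ℝ), ∃ c2 > (0 : ℝ),
    ∃ M > (0 : ℝ), ∃ c3 > (0 : ℝ), ∀ {ι : Type} [Fintype ι] (_ : Fintype.card ι = m + 1) (I : Finset ℕ) (H : ℝ)
      (_ : 0 < H) (w n : ι → ℕ → ℝ) (u v t : ℕ → ℝ) (ρ : ℝ), 0 ≤ ρ → ρ ≤ ρ0 → (∀ i, ∀ h ∈ I, 0 ≤ w i h) →
      (∀ h ∈ I, 0 ≤ u h) → (∀ h ∈ I, 0 ≤ v h) → (∀ h ∈ I, 0 ≤ t h) → (∀ i, ∀ h ∈ I, w i h ≤ u h) →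
      (∀ i, ∀ h ∈ I, w i h ≤ n i h + ρ * v h) → c0 * H ≤ ∑ h ∈ I, ∏ i, w i h →
      ∑ h ∈ I, u h ^ m ≤ C * H → ∑ h ∈ I, u h ^ (m + 1) ≤ C * H → ∑ h ∈ I, u h ^ (m + 2) ≤ C * H →
      ∑ h ∈ I, u h ^ (2 * (m + 1)) ≤ C * H → ∑ h ∈ I, v h ^ (m + 1) ≤ C * H →
      ∑ h ∈ I, t h ^ (m + 2) ≤ C * H →
      c3 * H ≤ #(I.filter (fun h => (∀ i, c2 ≤ n i h) ∧ t h ≤ M)) := by
  refine ⟨c0 / (16 * C), by positivity, c0 / (8 * C), by positivity, 16 * C / c0, by positivity,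
    c0 ^ 2 / (4 * C), by positivity, ?_⟩
  intro ι _ hcard I H hH w n u v t ρ hρ0 hρ hw hu hv ht hwu hwn hlow s1 s2 s3 s4 s5 s6
  set c2 := c0 / (8 * C) with hc2
  set M := 16 * C / c0 with hM
  have hc2p : 0 < c2 := by rw [hc2]; positivity
  have hMp : 0 < M := by rw [hM]; positivity
  set G := I.filter (fun h => (∀ i, c2 ≤ n i h) ∧ t h ≤ M) with hG
  have hprodu : ∀ h ∈ I, ∏ i, w i h ≤ u h ^ (m + 1) := by
    intro h hh
    calc ∏ i, w i h ≤ ∏ i : ι, u h := prod_le_prod (fun i _ => hw i h hh) (fun i _ => hwu i h hh)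
      _ = u h ^ (m + 1) := by rw [prod_const, card_univ, hcard]
  have hpt : ∀ h ∈ I, ∏ i, w i h ≤ (if h ∈ G then u h ^ (m + 1) else 0) + (c2 * u h ^ m +
      ρ * (v h ^ (m + 1) + u h ^ (m + 1)) + 1 / M * (t h ^ (m + 2) + u h ^ (m + 2))) := by
    intro h hh
    have hu0 := hu h hh
    have hv0 := hv h hh
    have ht0 := ht h hh
    have e1 : 0 ≤ c2 * u h ^ m := by positivity
    have e2 : 0 ≤ ρ * (v h ^ (m + 1) + u h ^ (m + 1)) := by positivity
    have e3 : 0 ≤ 1 / M * (t h ^ (m + 2) + u h ^ (m + 2)) := by positivity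
    have e4 : 0 ≤ (if h ∈ G then u h ^ (m + 1) else 0) := by split_ifs <;> positivity
    by_cases hg : h ∈ G
    · rw [if_pos hg]
      have := hprodu h hh
      linarith
    · rw [hG, mem_filter, not_and, not_and_or] at hg
      rcases hg hh with h1 | h1
      · push Not at h1
        obtain ⟨i, hi⟩ := h1
        have h2 : ∏ j, w j h ≤ (c2 + ρ * v h) * u h ^ m := by
          rw [← mul_prod_erase univ (fun j => w j h) (mem_univ i)]
          apply mul_le_mul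
          · have := hwn i h hh
            linarith
          · calc ∏ j ∈ univ.erase i, w j h ≤ ∏ j ∈ univ.erase i, u h :=
                prod_le_prod (fun j _ => hw j h hh) (fun j _ => hwu j h hh)
              _ = u h ^ m := by
                rw [prod_const, card_erase_of_mem (mem_univ _), card_univ, hcard]
                rfl
          · exact prod_nonneg fun j _ => hw j h hh
          · positivity
        have h3 := mul_le_mul_of_nonneg_left (mul_pow_le m (v h) (u h) hv0 hu0) hρ0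
        have h4 : (c2 + ρ * v h) * u h ^ m = c2 * u h ^ m + ρ * (v h * u h ^ m) := by ring
        linarith
      · push Not at h1
        have h2 := mul_pow_le (m + 1) (t h) (u h) ht0 hu0
        have h3 : u h ^ (m + 1) ≤ 1 / M * (t h * u h ^ (m + 1)) := by
          rw [div_mul_eq_mul_div, one_mul, le_div_iff₀ hMp, mul_comm]
          exact mul_le_mul_of_nonneg_right h1.le (by positivity)
        have h4 := mul_le_mul_of_nonneg_left h2 (show 0 ≤ 1 / M by positivity)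
        have h5 := hprodu h hh
        linarith
  have hsum := sum_le_sum hpt
  rw [sum_add_distrib, sum_add_distrib, sum_add_distrib, ← mul_sum, ← mul_sum, ← mul_sum, sum_add_distrib,
    sum_add_distrib] at hsum
  have hGs : ∑ h ∈ I, (if h ∈ G then u h ^ (m + 1) else 0) = ∑ h ∈ G, u h ^ (m + 1) := by
    rw [← sum_filter]
    congr 1
    ext h
    rw [mem_filter, hG, mem_filter]
    tauto
  rw [hGs] at hsum
  have b1 : c2 * ∑ h ∈ I, u h ^ m ≤ c0 / 8 * H := by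
    calc c2 * ∑ h ∈ I, u h ^ m ≤ c2 * (C * H) := mul_le_mul_of_nonneg_left s1 hc2p.le
      _ = c0 / 8 * H := by rw [hc2]; field_simp
  have b2 : ρ * (∑ h ∈ I, v h ^ (m + 1) + ∑ h ∈ I, u h ^ (m + 1)) ≤ c0 / 8 * H := by
    calc ρ * (∑ h ∈ I, v h ^ (m + 1) + ∑ h ∈ I, u h ^ (m + 1)) ≤ ρ * (C * H + C * H) :=
          mul_le_mul_of_nonneg_left (add_le_add s5 s2) hρ0
      _ ≤ c0 / (16 * C) * (C * H + C * H) := mul_le_mul_of_nonneg_right hρ (by positivity)
      _ = c0 / 8 * H := by field_simp; ring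
  have b3 : 1 / M * (∑ h ∈ I, t h ^ (m + 2) + ∑ h ∈ I, u h ^ (m + 2)) ≤ c0 / 8 * H := by
    calc 1 / M * (∑ h ∈ I, t h ^ (m + 2) + ∑ h ∈ I, u h ^ (m + 2)) ≤ 1 / M * (C * H + C * H) :=
          mul_le_mul_of_nonneg_left (add_le_add s6 s3) (by positivity)
      _ = c0 / 8 * H := by rw [hM]; field_simp; ring
  have hgood : c0 / 2 * H ≤ ∑ h ∈ G, u h ^ (m + 1) := by
    have : 0 < c0 * H := by positivity
    linarith
  have hCS : (∑ h ∈ G, u h ^ (m + 1)) ^ 2 ≤ #G * ∑ h ∈ G, (u h ^ (m + 1)) ^ 2 := sq_sum_le_card_mul_sum_sq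
  have hG2 : ∑ h ∈ G, (u h ^ (m + 1)) ^ 2 ≤ C * H := by
    refine le_trans ?_ s4
    calc ∑ h ∈ G, (u h ^ (m + 1)) ^ 2 ≤ ∑ h ∈ I, (u h ^ (m + 1)) ^ 2 :=
          sum_le_sum_of_subset_of_nonneg (filter_subset _ _) (fun h _ _ => by positivity)
      _ = ∑ h ∈ I, u h ^ (2 * (m + 1)) := by
          apply sum_congr rfl
          intro h _
          rw [← pow_mul]
          ring_nf
  have h1 : (c0 / 2 * H) ^ 2 ≤ #G * (C * H) :=
    (pow_le_pow_left₀ (by positivity) hgood 2).trans (hCS.trans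
      (mul_le_mul_of_nonneg_left hG2 (Nat.cast_nonneg _)))
  have h2 : c0 ^ 2 / (4 * C) * H * (C * H) ≤ #G * (C * H) := by
    refine le_trans (le_of_eq ?_) h1
    field_simp
    ring
  exact le_of_mul_le_mul_right h2 (by positivity)

end Pool.Agent.Run7.h756.PH
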