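import Mathlib

/-!
# Common differences of several sets

For finite sets `A i ⊆ [1, x]` (`i` in a finite type with `m` elements) and `1 ≤ H ≤ x`:
`H (∏ |A i|) ^ 2 ≤ 4 · 3 ^ m · x ^ m · ∑_{0 ≤ h < H} ∏ #{p ∈ A i : p + h ∈ A i}`.
-/

set_option autoImplicit false

open Finset

namespace Pool.Agent.Run7.h756.PH

open Classical in
theorem cells {ι : Type} [Fintype ι] [Nonempty ι] (x H : ℕ) (hH : 1 ≤ H) (hHx : H ≤ x)
    (A : ι → Finset ℕ) (hA : ∀ i, A i ⊆ Icc 1 x) :
    H * (∏ i, #(A i)) ^ 2 ≤ 4 * 3 ^ (Fintype.card ι) * x ^ (Fintype.card ι) *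
      ∑ h ∈ range H, ∏ i, #((A i).filter (fun p => p + h ∈ A i)) := by
  obtain ⟨i0⟩ := ‹Nonempty ι›
  set F := Fintype.piFinset A with hF
  set κ : (ι → ℕ) → ℕ × (ι → ℕ) := fun f => (f i0 / H, fun i => f i + x - f i0) with hκ
  set K := (range (x / H + 1)) ×ˢ Fintype.piFinset (fun i => if i = i0 then ({x} : Finset ℕ) else range (2 * x + 1))
    with hK
  have hFm : ∀ f ∈ F, ∀ i, 1 ≤ f i ∧ f i ≤ x := by
    intro f hf i
    rw [hF, Fintype.mem_piFinset] at hf
    exact mem_Icc.1 (hA i (hf i))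
  have hmap : ∀ f ∈ F, κ f ∈ K := by
    intro f hf
    have h1 := hFm f hf
    rw [hK, mem_product]
    constructor
    · rw [mem_range]
      have : f i0 / H ≤ x / H := Nat.div_le_div_right (h1 i0).2
      simp only [hκ]
      omega
    · rw [Fintype.mem_piFinset]
      intro i
      simp only [hκ]
      split_ifs with hi
      · rw [hi, mem_singleton]
        omega
      · rw [mem_range]
        have := h1 i
        have := h1 i0
        omega
  have hKc : #K = (x / H + 1) * (2 * x + 1) ^ (Fintype.card ι - 1) := by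
    rw [hK, card_product, card_range, Fintype.card_piFinset]
    congr 1
    rw [← mul_prod_erase univ _ (mem_univ i0), if_pos rfl, card_singleton, one_mul]
    rw [prod_congr rfl (fun i hi => by rw [if_neg (ne_of_mem_erase hi), card_range])]
    rw [prod_const, card_erase_of_mem (mem_univ _), card_univ]
  have hm : 1 ≤ Fintype.card ι := Fintype.card_pos_iff.2 ⟨i0⟩
  have hKb : #K * H ≤ 2 * 3 ^ (Fintype.card ι) * x ^ (Fintype.card ι) := by
    rw [hKc]
    have h1 : (x / H + 1) * H ≤ 2 * x := by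
      have := Nat.div_mul_le_self x H
      nlinarith
    have h2 : (2 * x + 1) ^ (Fintype.card ι - 1) ≤ (3 * x) ^ (Fintype.card ι - 1) :=
      Nat.pow_le_pow_left (by omega) _
    calc (x / H + 1) * (2 * x + 1) ^ (Fintype.card ι - 1) * H
        = ((x / H + 1) * H) * (2 * x + 1) ^ (Fintype.card ι - 1) := by ring
      _ ≤ (2 * x) * (3 * x) ^ (Fintype.card ι - 1) := Nat.mul_le_mul h1 h2
      _ ≤ 2 * (3 * x) * (3 * x) ^ (Fintype.card ι - 1) := by
          apply Nat.mul_le_mul_right
          omega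
      _ = 2 * ((3 * x) ^ (Fintype.card ι - 1) * (3 * x)) := by ring
      _ = 2 * 3 ^ (Fintype.card ι) * x ^ (Fintype.card ι) := by
          rw [← pow_succ, show Fintype.card ι - 1 + 1 = Fintype.card ι by omega, mul_pow]
          ring
  -- pairs in the same cell
  set R := (F ×ˢ F).filter (fun w => κ w.1 = κ w.2) with hR
  have hRc : #R = ∑ k ∈ K, #(F.filter (fun f => κ f = k)) ^ 2 := by
    rw [card_eq_sum_card_fiberwise (f := fun w => κ w.1) (s := R) (t := K)]
    · apply sum_congr rfl
      intro k _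
      rw [sq, ← card_product]
      congr 1
      ext w
      simp only [hR, mem_filter, mem_product]
      constructor
      · rintro ⟨⟨⟨h1, h2⟩, h3⟩, h4⟩
        exact ⟨⟨h1, h4⟩, ⟨h2, by rw [← h3]; exact h4⟩⟩
      · rintro ⟨⟨h1, h4⟩, ⟨h2, h5⟩⟩
        exact ⟨⟨⟨h1, h2⟩, by rw [h4, h5]⟩, h4⟩
    · intro w hw
      rw [mem_coe, hR, mem_filter, mem_product] at hw
      exact mem_coe.2 (hmap _ hw.1.1)
  have hFc : #F = ∑ k ∈ K, #(F.filter (fun f => κ f = k)) :=
    card_eq_sum_card_fiberwise (fun f hf => mem_coe.2 (hmap f (mem_coe.1 hf)))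
  have hCS : #F ^ 2 ≤ #K * #R := by
    rw [hRc, hFc]
    exact sq_sum_le_card_mul_sum_sq
  -- pairs in the same cell and common differences
  set R1 := R.filter (fun w => w.1 i0 ≤ w.2 i0) with hR1
  have hR2 : #R ≤ 2 * #R1 := by
    have h1 : #(R.filter (fun w => ¬ w.1 i0 ≤ w.2 i0)) ≤ #R1 := by
      apply card_le_card_of_injOn (fun w => (w.2, w.1))
      · intro w hw
        simp only [hR1, hR, coe_filter, mem_filter, mem_product, Set.mem_ofPred_eq] at hw ⊢
        exact ⟨⟨⟨hw.1.1.2, hw.1.1.1⟩, hw.1.2.symm⟩, by omega⟩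
      · intro w _ w' _ h
        simp only [Prod.mk.injEq] at h
        exact Prod.ext h.2 h.1
    have h2 : #R1 + #(R.filter (fun w => ¬ w.1 i0 ≤ w.2 i0)) = #R := by
      rw [hR1]
      exact card_filter_add_card_filter_not _
    omega
  have hR3 : #R1 ≤ ∑ h ∈ range H, ∏ i, #((A i).filter (fun p => p + h ∈ A i)) := by
    have h1 : ∑ h ∈ range H, ∏ i, #((A i).filter (fun p => p + h ∈ A i)) =
        #((range H).sigma (fun h => Fintype.piFinset (fun i => (A i).filter (fun p => p + h ∈ A i)))) := by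
      rw [card_sigma]
      apply sum_congr rfl
      intro h _
      rw [Fintype.card_piFinset]
    rw [h1]
    apply card_le_card_of_injOn (fun w => (⟨w.2 i0 - w.1 i0, w.1⟩ : Σ _ : ℕ, (ι → ℕ)))
    · intro w hw
      simp only [hR1, hR, coe_filter, mem_filter, mem_product, Set.mem_ofPred_eq] at hw
      obtain ⟨⟨⟨h2, h3⟩, h4⟩, h5⟩ := hw
      have h6 := hFm _ h2
      have h7 := hFm _ h3
      simp only [hκ, Prod.mk.injEq] at h4
      rw [mem_coe, mem_sigma]
      constructor
      · rw [mem_range]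
        simp only
        have h8 := Nat.div_add_mod (w.1 i0) H
        have h9 := Nat.div_add_mod (w.2 i0) H
        have h10 := Nat.mod_lt (w.2 i0) (show H > 0 by omega)
        rw [← h4.1] at h9
        omega
      · rw [Fintype.mem_piFinset]
        intro i
        rw [hF, Fintype.mem_piFinset] at h2 h3
        rw [mem_filter]
        refine ⟨h2 i, ?_⟩
        have h8 := congrFun h4.2 i
        have h9 := h6 i
        have h10 := h7 i
        have h11 := h6 i0
        have h12 := h7 i0
        have : w.1 i + (w.2 i0 - w.1 i0) = w.2 i := by omega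
        rw [this]
        exact h3 i
    · intro w hw w' hw' h
      simp only [hR1, hR, coe_filter, mem_filter, mem_product, Set.mem_ofPred_eq] at hw hw'
      obtain ⟨⟨⟨h2, h3⟩, h4⟩, h5⟩ := hw
      obtain ⟨⟨⟨h2', h3'⟩, h4'⟩, h5'⟩ := hw'
      simp only [Sigma.mk.injEq, heq_eq_eq] at h
      simp only [hκ, Prod.mk.injEq] at h4 h4'
      refine Prod.ext h.2 ?_
      funext i
      have h8 := congrFun h4.2 i
      have h8' := congrFun h4'.2 i
      have e1 := hFm _ h2 i
      have e2 := hFm _ h3 i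
      have e3 := hFm _ h2 i0
      have e4 := hFm _ h3 i0
      have e1' := hFm _ h2' i
      have e2' := hFm _ h3' i
      have e3' := hFm _ h2' i0
      have e4' := hFm _ h3' i0
      have e5 := congrFun h.2 i
      have e6 := congrFun h.2 i0
      have e7 := h.1
      omega
  have hFp : #F = ∏ i, #(A i) := by rw [hF, Fintype.card_piFinset]
  rw [← hFp]
  calc H * #F ^ 2 ≤ H * (#K * #R) := Nat.mul_le_mul_left _ hCS
    _ = (#K * H) * #R := by ring
    _ ≤ (2 * 3 ^ (Fintype.card ι) * x ^ (Fintype.card ι)) * (2 * #R1) := Nat.mul_le_mul hKb hR2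
    _ ≤ (2 * 3 ^ (Fintype.card ι) * x ^ (Fintype.card ι)) *
        (2 * ∑ h ∈ range H, ∏ i, #((A i).filter (fun p => p + h ∈ A i))) := by
        apply Nat.mul_le_mul_left
        exact Nat.mul_le_mul_left _ hR3
    _ = _ := by ring

end Pool.Agent.Run7.h756.PH
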