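import Mathlib

/-!
# Strings of consecutive elements of a set, all in one residue class

For a set `S`, a point `p ∈ S` and a window `(p, p + L]`: the number of `r`-element sets of elements of `S` in the
window which are congruent to `p` modulo `q` is at most `(r + 1)` times the number of `(r + 1)`-element sets of
elements of `S` in the window, plus `1` if the `r` elements of `S` following `p` are in the window and congruent to
`p`.
-/

set_option autoImplicit false

open Finset

namespace Pool.Agent.Run7.h756.PH

/-- `n 0 < n 1 < … < n r` are consecutive elements of `S`. -/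
def Consecutive (S : ℕ → Prop) (r : ℕ) (n : ℕ → ℕ) : Prop :=
  (∀ i ≤ r, S (n i)) ∧ ∀ i < r, n i < n (i + 1) ∧ ∀ m, n i < m → m < n (i + 1) → ¬ S m

/-- `p` and the `r` next elements of `S` are in `[p, p + L]` and congruent modulo `q` -/
def Str (S : ℕ → Prop) (q r L p : ℕ) : Prop :=
  ∃ n : ℕ → ℕ, n 0 = p ∧ Consecutive S r n ∧ (∀ i ≤ r, n i % q = p % q) ∧ n r ≤ p + L

open Classical in
/-- the elements of `S` in `(p, p + L]`, relative to `p` -/
noncomputable def win (S : ℕ → Prop) (L p : ℕ) : Finset ℕ := (Icc 1 L).filter (fun d => S (p + d))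

lemma choose_step (s r : ℕ) (h : r + 1 ≤ s) : s.choose r ≤ (r + 1) * s.choose (r + 1) := by
  have h1 := Nat.choose_succ_right_eq s r
  calc s.choose r = s.choose r * 1 := by ring
    _ ≤ s.choose r * (s - r) := Nat.mul_le_mul_left _ (by omega)
    _ = s.choose (r + 1) * (r + 1) := h1.symm
    _ = _ := by ring

lemma str_of_card {S : ℕ → Prop} {q r L p : ℕ} (hp : S p) (hc : #(win S L p) = r)
    (hq : ∀ d ∈ win S L p, q ∣ d) : Str S q r L p := by
  classical
  have h0 : (0 : ℕ) ∉ win S L p := by
    intro h
    have := mem_Icc.1 (mem_filter.1 h).1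
    omega
  set T := insert 0 (win S L p) with hT
  have hTc : #T = r + 1 := by rw [hT, card_insert_of_notMem h0, hc]
  set f := T.orderEmbOfFin hTc with hf
  have hfm : ∀ j, f j ∈ T := fun j => T.orderEmbOfFin_mem hTc j
  have hTL : ∀ d ∈ T, d ≤ L := by
    intro d hd
    rw [hT, mem_insert] at hd
    rcases hd with rfl | hd
    · omega
    · exact (mem_Icc.1 (mem_filter.1 hd).1).2
  have hTS : ∀ d ∈ T, S (p + d) := by
    intro d hd
    rw [hT, mem_insert] at hd
    rcases hd with rfl | hd
    · simpa using hp
    · exact (mem_filter.1 hd).2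
  have hTq : ∀ d ∈ T, q ∣ d := by
    intro d hd
    rw [hT, mem_insert] at hd
    rcases hd with rfl | hd
    · exact dvd_zero q
    · exact hq d hd
  have hsurj : ∀ d ∈ T, ∃ j, f j = d := by
    intro d hd
    have : d ∈ Set.range f := by
      rw [hf, Finset.range_orderEmbOfFin]
      exact hd
    exact this
  have hf0 : f ⟨0, by omega⟩ = 0 := by
    obtain ⟨j, hj⟩ := hsurj 0 (by rw [hT]; exact mem_insert_self _ _)
    have : f ⟨0, by omega⟩ ≤ f j := f.monotone (Fin.mk_le_of_le_val (Nat.zero_le _))
    omega
  refine ⟨fun i => if h : i < r + 1 then p + f ⟨i, h⟩ else 0, ?_, ⟨?_, ?_⟩, ?_, ?_⟩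
  · simp only
    rw [dif_pos (by omega), hf0]
    rfl
  · intro i hi
    simp only
    rw [dif_pos (by omega)]
    exact hTS _ (hfm _)
  · intro i hi
    simp only
    rw [dif_pos (by omega), dif_pos (by omega)]
    refine ⟨?_, ?_⟩
    · have : f ⟨i, by omega⟩ < f ⟨i + 1, by omega⟩ := f.strictMono (by
        rw [Fin.mk_lt_mk]; omega)
      omega
    · intro m hm1 hm2 hSm
      have hmT : m - p ∈ T := by
        rw [hT, mem_insert]
        right
        refine mem_filter.2 ⟨mem_Icc.2 ⟨by omega, ?_⟩, ?_⟩
        · have := hTL _ (hfm ⟨i + 1, by omega⟩)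
          omega
        · rwa [show p + (m - p) = m by omega]
      obtain ⟨j, hj⟩ := hsurj _ hmT
      have h1 : f ⟨i, by omega⟩ < f j := by omega
      have h2 : f j < f ⟨i + 1, by omega⟩ := by omega
      have h3 := f.lt_iff_lt.1 h1
      have h4 := f.lt_iff_lt.1 h2
      rw [Fin.lt_def] at h3 h4
      simp only at h3 h4
      omega
  · intro i hi
    simp only
    rw [dif_pos (by omega)]
    obtain ⟨k, hk⟩ := hTq _ (hfm ⟨i, by omega⟩)
    rw [hk, Nat.add_mul_mod_self_left]
  · simp only
    rw [dif_pos (by omega)]
    have := hTL _ (hfm ⟨r, by omega⟩)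
    omega

open Classical in
theorem win_le {S : ℕ → Prop} {q r L p : ℕ} (hp : S p) :
    #(powersetCard r ((win S L p).filter (fun d => q ∣ d))) ≤
      (if Str S q r L p then 1 else 0) + (r + 1) * #(powersetCard (r + 1) (win S L p)) := by
  rw [card_powersetCard, card_powersetCard]
  by_cases h1 : r + 1 ≤ #(win S L p)
  · calc (#((win S L p).filter (fun d => q ∣ d))).choose r ≤ (#(win S L p)).choose r :=
        Nat.choose_le_choose r (card_filter_le _ _)
      _ ≤ (r + 1) * (#(win S L p)).choose (r + 1) := choose_step _ _ h1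
      _ ≤ _ := Nat.le_add_left _ _
  · by_cases h2 : #((win S L p).filter (fun d => q ∣ d)) < r
    · rw [Nat.choose_eq_zero_of_lt h2]
      exact Nat.zero_le _
    · have h3 : #((win S L p).filter (fun d => q ∣ d)) ≤ #(win S L p) := card_filter_le _ _
      have h4 : #((win S L p).filter (fun d => q ∣ d)) = r := by omega
      have h5 : #(win S L p) = r := by omega
      have h6 : (win S L p).filter (fun d => q ∣ d) = win S L p :=
        eq_of_subset_of_card_le (filter_subset _ _) (by omega)
      have h7 : Str S q r L p := str_of_card hp h5 (fun d hd => by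
        rw [← h6] at hd
        exact (mem_filter.1 hd).2)
      rw [if_pos h7, h4, Nat.choose_self]
      exact Nat.le_add_right _ _

end Pool.Agent.Run7.h756.PH
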