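import Pool.Agent.Lib.helper27.WPNT

/-!
# Primes of a residue class in short windows

A lower bound for the number of pairs `(p, D)`, `p ≤ x`, `D` an `r`-element subset of `(0, L]`, such that `p` and
`p + d` (`d ∈ D`) are primes in a given residue class modulo `q`, for `L` at least a large multiple of `log x`.
-/

set_option autoImplicit false

open Finset

namespace Pool.Agent.Run7.h756.PH

/-- the primes `≤ x` of the class `c` modulo `q` -/
def Pr (q c x : ℕ) : Finset ℕ := (Icc 1 x).filter (fun p => p.Prime ∧ p % q = c)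

/-- Chebyshev's lower bound in a residue class -/
theorem pr_lower (q c : ℕ) (hq : 0 < q) (hc : c < q) (hcop : c.Coprime q) :
    ∃ c1 > (0 : ℝ), ∃ x₀ : ℕ, ∀ x : ℕ, x₀ ≤ x → c1 * (x / Real.log x) ≤ #(Pr q c x) := by
  have : NeZero q := ⟨hq.ne'⟩
  have hu : IsUnit ((c : ℕ) : ZMod q) := (ZMod.isUnit_iff_coprime c q).2 hcop
  obtain ⟨c1, hc1, N, hN⟩ := Pool.Agent.Lib.helper27.WPNT.weak_pnt_ap hu (ε := 1) one_pos
  refine ⟨c1, hc1, max N 2, fun x hx => ?_⟩
  have hxN : N ≤ x := (le_max_left _ _).trans hx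
  have hx2 : 2 ≤ x := (le_max_right _ _).trans hx
  have hlog : 0 < Real.log x := Real.log_pos (by exact_mod_cast hx2)
  have h1 := hN x hxN
  have h2 : ∑ p ∈ (range (x + 1)).filter (fun p : ℕ => p.Prime ∧ (p : ZMod q) = c ∧ (1 - 1) * (x : ℝ) < p),
      Real.log p ≤ #(Pr q c x) * Real.log x := by
    calc ∑ p ∈ (range (x + 1)).filter (fun p : ℕ => p.Prime ∧ (p : ZMod q) = c ∧ (1 - 1) * (x : ℝ) < p),
          Real.log p ≤ ∑ p ∈ Pr q c x, Real.log x := by
          refine (sum_le_sum_of_subset_of_nonneg (t := Pr q c x) ?_ ?_).trans ?_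
          · intro p hp
            rw [mem_filter, mem_range] at hp
            unfold Pr
            rw [mem_filter, mem_Icc]
            refine ⟨⟨hp.2.1.one_lt.le, by omega⟩, hp.2.1, ?_⟩
            have h3 := (ZMod.natCast_eq_natCast_iff' p c q).1 hp.2.2.1
            rwa [Nat.mod_eq_of_lt hc] at h3
          · intro p _ _
            exact Real.log_natCast_nonneg p
          · apply sum_le_sum
            intro p hp
            unfold Pr at hp
            rw [mem_filter, mem_Icc] at hp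
            apply Real.log_le_log
            · exact_mod_cast hp.1.1
            · exact_mod_cast hp.1.2
      _ = _ := by rw [sum_const, nsmul_eq_mul]
  rw [← mul_div_assoc, div_le_iff₀ hlog]
  linarith

/-- the least element -/
noncomputable def mn (T : Finset ℕ) : ℕ := sInf (↑T : Set ℕ)

lemma mn_mem {T : Finset ℕ} (hT : T.Nonempty) : mn T ∈ T := by
  have := Nat.sInf_mem (s := (↑T : Set ℕ)) hT
  exact_mod_cast this

lemma mn_le {T : Finset ℕ} {t : ℕ} (ht : t ∈ T) : mn T ≤ t := Nat.sInf_le (mem_coe.2 ht)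

/-- the other elements, relative to the least one -/
noncomputable def df (T : Finset ℕ) : Finset ℕ := (T.erase (mn T)).image (fun t => t - mn T)

lemma df_inv {T : Finset ℕ} (hT : T.Nonempty) : insert (mn T) ((df T).image (fun d => mn T + d)) = T := by
  ext t
  unfold df
  simp only [mem_insert, mem_image, mem_erase]
  constructor
  · rintro (h | ⟨d, ⟨s, ⟨_, hs⟩, rfl⟩, rfl⟩)
    · rw [h]; exact mn_mem hT
    · have := mn_le hs
      rwa [show mn T + (s - mn T) = s by omega]
  · intro ht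
    by_cases h : t = mn T
    · exact Or.inl h
    · right
      have := mn_le ht
      exact ⟨t - mn T, ⟨t, ⟨h, ht⟩, rfl⟩, by omega⟩

lemma windows (P : Finset ℕ) (q r x L : ℕ) (hL : 1 ≤ L) (hP : P ⊆ Icc 1 x)
    (hPq : ∀ p ∈ P, ∀ p' ∈ P, p % q = p' % q) :
    ∑ j ∈ range (x / L + 1), (#(P.filter (fun p => p / L = j))).choose (r + 1) ≤
      ∑ D ∈ powersetCard r ((Icc 1 L).filter (fun d => q ∣ d)), #(P.filter (fun p => ∀ d ∈ D, p + d ∈ P)) := by
  classical
  have h1 : ∑ j ∈ range (x / L + 1), (#(P.filter (fun p => p / L = j))).choose (r + 1) =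
      #((range (x / L + 1)).sigma (fun j => powersetCard (r + 1) (P.filter (fun p => p / L = j)))) := by
    rw [card_sigma]
    apply sum_congr rfl
    intro j _
    rw [card_powersetCard]
  rw [h1, ← card_sigma]
  apply card_le_card_of_injOn (fun w => (⟨df w.2, mn w.2⟩ : Σ _ : Finset ℕ, ℕ))
  · rintro ⟨j, T⟩ hw
    rw [mem_coe, mem_sigma, mem_powersetCard] at hw
    obtain ⟨_, hT, hTc⟩ := hw
    simp only at hT hTc
    have hTn : T.Nonempty := card_pos.1 (by omega)
    have hm := mn_mem hTn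
    have hTP : ∀ t ∈ T, t ∈ P ∧ t / L = j := fun t ht => mem_filter.1 (hT ht)
    rw [mem_coe, mem_sigma]
    simp only
    constructor
    · rw [mem_powersetCard]
      constructor
      · intro d hd
        unfold df at hd
        rw [mem_image] at hd
        obtain ⟨t, ht, rfl⟩ := hd
        rw [mem_erase] at ht
        have h2 := mn_le ht.2
        rw [mem_filter, mem_Icc]
        refine ⟨⟨by omega, ?_⟩, ?_⟩
        · have h3 := (hTP t ht.2).2
          have h4 := (hTP _ hm).2
          have h5 := Nat.div_add_mod t L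
          have h6 := Nat.div_add_mod (mn T) L
          have h7 := Nat.mod_lt t (show L > 0 by omega)
          rw [h3] at h5
          rw [h4] at h6
          omega
        · exact (Nat.modEq_iff_dvd' h2).1 (hPq _ (hTP _ hm).1 _ (hTP t ht.2).1)
      · unfold df
        rw [card_image_of_injOn, card_erase_of_mem hm, hTc]
        · omega
        · intro t ht t' ht' h
          rw [mem_coe, mem_erase] at ht ht'
          have h2 := mn_le ht.2
          have h3 := mn_le ht'.2
          simp only at h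
          omega
    · rw [mem_filter]
      refine ⟨(hTP _ hm).1, ?_⟩
      intro d hd
      unfold df at hd
      rw [mem_image] at hd
      obtain ⟨t, ht, rfl⟩ := hd
      rw [mem_erase] at ht
      have h2 := mn_le ht.2
      rw [show mn T + (t - mn T) = t by omega]
      exact (hTP t ht.2).1
  · rintro ⟨j, T⟩ hw ⟨j', T'⟩ hw' h
    rw [mem_coe, mem_sigma, mem_powersetCard] at hw hw'
    obtain ⟨_, hT, hTc⟩ := hw
    obtain ⟨_, hT', hTc'⟩ := hw'
    simp only at hT hTc hT' hTc'
    simp only [Sigma.mk.injEq, heq_eq_eq] at h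
    have hTn : T.Nonempty := card_pos.1 (by omega)
    have hTn' : T'.Nonempty := card_pos.1 (by omega)
    have h2 : T = T' := by
      rw [← df_inv hTn, ← df_inv hTn', h.1, h.2]
    subst h2
    have h3 := (mem_filter.1 (hT (mn_mem hTn))).2
    have h4 := (mem_filter.1 (hT' (mn_mem hTn))).2
    rw [← h3, ← h4]

lemma choose_lower (n r : ℕ) : (n - r) ^ (r + 1) ≤ (r + 1).factorial * n.choose (r + 1) := by
  have h1 := Nat.pow_sub_le_descFactorial n (r + 1)
  rw [Nat.descFactorial_eq_factorial_mul_choose] at h1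
  rwa [show n + 1 - (r + 1) = n - r by omega] at h1

/-- the prime configurations of one class, for a fixed set of differences -/
def AD (q c x : ℕ) (D : Finset ℕ) : Finset ℕ :=
  (Icc 1 x).filter (fun p => p.Prime ∧ p % q = c ∧ ∀ d ∈ D, (p + d).Prime)

theorem config_lower (q c r : ℕ) (hq : 0 < q) (hc : c < q) (hcop : c.Coprime q) :
    ∃ c1 > (0 : ℝ), ∃ K > (0 : ℝ), ∃ x₀ : ℕ, ∀ x : ℕ, x₀ ≤ x → ∀ L : ℕ, K * Real.log x ≤ L → 1 ≤ L → L ≤ x →
      c1 * ((L : ℝ) ^ r * x / Real.log x ^ (r + 1)) ≤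
        ∑ D ∈ powersetCard r ((Icc 1 L).filter (fun d => q ∣ d)), (#(AD q c x D) : ℝ) := by
  obtain ⟨c1, hc1, x₀, hpr⟩ := pr_lower q c hq hc hcop
  refine ⟨(c1 / 2) ^ (r + 1) / (2 ^ r * (r + 1).factorial), by positivity, 4 * (r + 1) / c1, by positivity,
    max x₀ 3, fun x hx L hKL hL1 hLx => ?_⟩
  have hx0 : x₀ ≤ x := (le_max_left _ _).trans hx
  have hx3 : 3 ≤ x := (le_max_right _ _).trans hx
  have hxr : (3 : ℝ) ≤ x := by exact_mod_cast hx3
  have hlog : 0 < Real.log x := Real.log_pos (by linarith)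
  have hLr : (0 : ℝ) < L := by exact_mod_cast hL1
  set P := Pr q c x with hP
  have hPs : P ⊆ Icc 1 x := filter_subset _ _
  have hPq : ∀ p ∈ P, ∀ p' ∈ P, p % q = p' % q := by
    intro p hp p' hp'
    rw [(mem_filter.1 hp).2.2, (mem_filter.1 hp').2.2]
  have h1 := windows P q r x L hL1 hPs hPq
  have h2 : ∑ D ∈ powersetCard r ((Icc 1 L).filter (fun d => q ∣ d)), #(P.filter (fun p => ∀ d ∈ D, p + d ∈ P)) ≤
      ∑ D ∈ powersetCard r ((Icc 1 L).filter (fun d => q ∣ d)), #(AD q c x D) := by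
    apply sum_le_sum
    intro D _
    apply card_le_card
    intro p hp
    rw [mem_filter] at hp
    have h3 := mem_filter.1 hp.1
    unfold AD
    rw [mem_filter]
    exact ⟨h3.1, h3.2.1, h3.2.2, fun d hd => (mem_filter.1 (hp.2 d hd)).2.1⟩
  set J := x / L + 1 with hJ
  set n : ℕ → ℕ := fun j => #(P.filter (fun p => p / L = j)) with hn
  have hJr : (J : ℝ) ≤ 2 * x / L := by
    rw [le_div_iff₀ hLr]
    have h3 : J * L ≤ 2 * x := by
      rw [hJ]
      have := Nat.div_mul_le_self x L
      nlinarith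
    exact_mod_cast h3
  have hsum : #P = ∑ j ∈ range J, n j := by
    apply card_eq_sum_card_fiberwise
    intro p hp
    have h3 := mem_Icc.1 (hPs (mem_coe.1 hp))
    rw [mem_coe, mem_range, hJ]
    have : p / L ≤ x / L := Nat.div_le_div_right h3.2
    show p / L < x / L + 1
    omega
  have h4 : ((∑ j ∈ range J, (n j - r) : ℕ) : ℝ) ^ (r + 1) ≤ (J : ℝ) ^ r *
      ((r + 1).factorial * ∑ D ∈ powersetCard r ((Icc 1 L).filter (fun d => q ∣ d)), (#(AD q c x D) : ℝ)) := by
    have h5 : (∑ j ∈ range J, (n j - r)) ^ (r + 1) ≤ #(range J) ^ r * ∑ j ∈ range J, (n j - r) ^ (r + 1) :=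
      pow_sum_le_card_mul_sum_pow (fun _ _ => Nat.zero_le _) r
    rw [card_range] at h5
    have h6 : ∑ j ∈ range J, (n j - r) ^ (r + 1) ≤ (r + 1).factorial *
        ∑ D ∈ powersetCard r ((Icc 1 L).filter (fun d => q ∣ d)), #(AD q c x D) := by
      calc ∑ j ∈ range J, (n j - r) ^ (r + 1) ≤ ∑ j ∈ range J, (r + 1).factorial * (n j).choose (r + 1) :=
            sum_le_sum fun j _ => choose_lower _ _
        _ = (r + 1).factorial * ∑ j ∈ range J, (n j).choose (r + 1) := by rw [mul_sum]
        _ ≤ _ := Nat.mul_le_mul_left _ (h1.trans h2)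
    have h7 := h5.trans (Nat.mul_le_mul_left _ h6)
    exact_mod_cast h7
  have hS0 : 0 ≤ ∑ D ∈ powersetCard r ((Icc 1 L).filter (fun d => q ∣ d)), (#(AD q c x D) : ℝ) :=
    sum_nonneg fun D _ => Nat.cast_nonneg _
  generalize ∑ D ∈ powersetCard r ((Icc 1 L).filter (fun d => q ∣ d)), (#(AD q c x D) : ℝ) = S at h4 hS0 ⊢
  have h5 : c1 / 2 * (x / Real.log x) ≤ ((∑ j ∈ range J, (n j - r) : ℕ) : ℝ) := by
    have h6 : #P ≤ (∑ j ∈ range J, (n j - r)) + r * J := by
      rw [hsum]
      calc ∑ j ∈ range J, n j ≤ ∑ j ∈ range J, ((n j - r) + r) := sum_le_sum fun j _ => by omega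
        _ = _ := by rw [sum_add_distrib, sum_const, card_range, smul_eq_mul]; ring
    have h7 : (#P : ℝ) ≤ ((∑ j ∈ range J, (n j - r) : ℕ) : ℝ) + r * J := by exact_mod_cast h6
    have h8 := hpr x hx0
    have h9 : (r : ℝ) * J ≤ c1 / 2 * (x / Real.log x) := by
      have h10 : (r : ℝ) * J ≤ r * (2 * x / L) := mul_le_mul_of_nonneg_left hJr (Nat.cast_nonneg _)
      refine h10.trans ?_
      rw [← mul_div_assoc, ← mul_div_assoc, div_le_div_iff₀ hLr hlog]
      have h11 : 4 * ((r : ℝ) + 1) * Real.log x ≤ c1 * L := by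
        have := mul_le_mul_of_nonneg_left hKL hc1.le
        rw [show c1 * (4 * ((r : ℝ) + 1) / c1 * Real.log x) = 4 * ((r : ℝ) + 1) * Real.log x by
          field_simp] at this
        exact this
      have h12 : 0 ≤ (x : ℝ) * Real.log x := by positivity
      nlinarith [mul_le_mul_of_nonneg_left h11 (show (0 : ℝ) ≤ x by positivity)]
    linarith
  have h6 : (c1 / 2 * (x / Real.log x)) ^ (r + 1) ≤ (2 * x / L) ^ r * ((r + 1).factorial * S) := by
    refine (pow_le_pow_left₀ (by positivity) h5 _).trans (h4.trans ?_)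
    apply mul_le_mul_of_nonneg_right (pow_le_pow_left₀ (Nat.cast_nonneg _) hJr _)
    positivity
  have hpos : (0 : ℝ) < (2 * x / L) ^ r * (r + 1).factorial := by positivity
  rw [← mul_assoc, ← div_le_iff₀' hpos] at h6
  refine le_trans (le_of_eq ?_) h6
  have e1 : (c1 / 2 * ((x : ℝ) / Real.log x)) ^ (r + 1) =
      (c1 / 2) ^ (r + 1) * ((x : ℝ) ^ r * x / Real.log x ^ (r + 1)) := by
    rw [mul_pow, div_pow (x : ℝ), pow_succ (x : ℝ)]
  have e2 : (2 * (x : ℝ) / L) ^ r = 2 ^ r * (x : ℝ) ^ r / (L : ℝ) ^ r := by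
    rw [div_pow, mul_pow]
  rw [e1, e2]
  have b0 : (x : ℝ) ^ r ≠ 0 := by positivity
  have l0 : (L : ℝ) ^ r ≠ 0 := by positivity
  have z0 : Real.log x ^ (r + 1) ≠ 0 := by positivity
  have t0 : (2 : ℝ) ^ r ≠ 0 := by positivity
  have f0 : ((r + 1).factorial : ℝ) ≠ 0 := by positivity
  generalize (c1 / 2) ^ (r + 1) = a
  generalize (x : ℝ) ^ r = b at *
  generalize (L : ℝ) ^ r = l at *
  generalize Real.log x ^ (r + 1) = z at *
  generalize (2 : ℝ) ^ r = t at *
  generalize ((r + 1).factorial : ℝ) = f at *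
  field_simp

end Pool.Agent.Run7.h756.PH
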