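import Pool.Agent.Run7.h756.PH.Mom
import Pool.Agent.Run7.h756.PH.Cells
import Pool.Agent.Run7.h756.PH.Win

/-!
# Lower bound for the average over the difference of the product over the classes

`W q r c x L h` counts the configurations of `r + 1` prime pairs of difference `h`, all in the class `c` modulo `q`,
in a window of length `L`; the sum over the multiples `h < H` of `q` of the product of these numbers over several
classes is bounded from below by the expected order of magnitude.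
-/

set_option autoImplicit false

open Finset

namespace Pool.Agent.Run7.h756.PH

open Classical in
/-- the number of the pairs `(p, D)`: `p ≤ x` of the class `c`, `D` an `r`-element subset of `(0, L]` of multiples of
`q`, and `p` and the `p + d`, `d ∈ D`, in the set of the prime pairs of difference `h` -/
noncomputable def W (q r c x L h : ℕ) : ℕ :=
  ∑ p ∈ (Icc 1 x).filter (fun p => PP h p ∧ p % q = c),
    #(powersetCard r ((win (PP h) L p).filter (fun d => q ∣ d)))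

open Classical in
lemma W_ge (q r c x L h : ℕ) : ∑ D ∈ powersetCard r ((Icc 1 L).filter (fun d => q ∣ d)),
    #((AD q c x D).filter (fun p => p + h ∈ AD q c x D)) ≤ W q r c x L h := by
  unfold W
  have h1 : ∀ p, powersetCard r ((win (PP h) L p).filter (fun d => q ∣ d)) =
      (powersetCard r ((Icc 1 L).filter (fun d => q ∣ d))).filter (fun D => ∀ d ∈ D, PP h (p + d)) := by
    intro p
    ext D
    rw [mem_powersetCard, mem_filter, mem_powersetCard]
    constructor
    · rintro ⟨h2, h3⟩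
      refine ⟨⟨fun d hd => ?_, h3⟩, fun d hd => ?_⟩
      · have h4 := mem_filter.1 (h2 hd)
        exact mem_filter.2 ⟨(mem_filter.1 h4.1).1, h4.2⟩
      · exact (mem_filter.1 (mem_filter.1 (h2 hd)).1).2
    · rintro ⟨⟨h2, h3⟩, h4⟩
      refine ⟨fun d hd => ?_, h3⟩
      have h5 := mem_filter.1 (h2 hd)
      exact mem_filter.2 ⟨mem_filter.2 ⟨h5.1, h4 d hd⟩, h5.2⟩
  have h2 : ∀ p, #(powersetCard r ((win (PP h) L p).filter (fun d => q ∣ d))) =
      ∑ D ∈ powersetCard r ((Icc 1 L).filter (fun d => q ∣ d)), if ∀ d ∈ D, PP h (p + d) then 1 else 0 := by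
    intro p
    rw [h1, card_filter]
  rw [sum_congr rfl (fun p _ => h2 p), sum_comm]
  apply sum_le_sum
  intro D _
  rw [← card_filter]
  apply card_le_card
  intro p hp
  rw [mem_filter] at hp
  unfold AD at hp
  rw [mem_filter, mem_filter] at hp
  obtain ⟨⟨h3, h4, h5, h6⟩, h7, h8, h9, h10⟩ := hp
  rw [mem_filter, mem_filter]
  refine ⟨⟨h3, ⟨h4, h8⟩, h5⟩, fun d hd => ⟨h6 d hd, ?_⟩⟩
  have := h10 d hd
  rwa [show p + d + h = p + h + d by ring]

theorem lower {ι : Type} [Fintype ι] [Nonempty ι] (q r : ℕ) (hq : 0 < q) (c : ι → ℕ)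
    (hc : ∀ i, c i < q ∧ (c i).Coprime q) :
    ∃ c0 > (0 : ℝ), ∃ K > (0 : ℝ), ∃ x₀ : ℕ, ∀ x : ℕ, x₀ ≤ x → ∀ L H : ℕ, K * Real.log x ≤ L → 1 ≤ L → L ≤ H →
      H ≤ x → c0 * H * ((L : ℝ) ^ r * x / Real.log x ^ (2 * r + 2)) ^ (Fintype.card ι) ≤
        ∑ h ∈ (range H).filter (fun h => q ∣ h), ∏ i, (W q r (c i) x L h : ℝ) := by
  classical
  choose c1 hc1 K hK x₀ hlow using fun i => config_lower q (c i) r hq (hc i).1 (hc i).2
  refine ⟨(∏ i, c1 i ^ 2) / (4 * 3 ^ (Fintype.card ι)), by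
    have : 0 < ∏ i, c1 i ^ 2 := prod_pos fun i _ => pow_pos (hc1 i) 2
    positivity, ∑ i, K i, sum_pos (fun i _ => hK i) univ_nonempty, ∑ i, x₀ i + 2,
    fun x hx L H hKL hL1 hLH hHx => ?_⟩
  have hx2 : 2 ≤ x := by omega
  have hlog : 0 < Real.log x := Real.log_pos (by exact_mod_cast hx2)
  have hxi : ∀ i, x₀ i ≤ x := fun i => by
    have := single_le_sum (f := x₀) (fun i _ => Nat.zero_le _) (mem_univ i)
    omega
  have hKi : ∀ i, K i * Real.log x ≤ L := fun i => by
    have := single_le_sum (f := K) (fun i _ => (hK i).le) (mem_univ i)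
    nlinarith
  set 𝒟 := powersetCard r ((Icc 1 L).filter (fun d => q ∣ d)) with h𝒟
  set m := Fintype.card ι with hm
  have hD : (#𝒟 : ℝ) ≤ (L : ℝ) ^ r := by
    rw [h𝒟, card_powersetCard]
    have h1 : #((Icc 1 L).filter (fun d => q ∣ d)) ≤ L := by
      refine (card_filter_le _ _).trans ?_
      rw [Nat.card_Icc]
      omega
    have h2 : (#((Icc 1 L).filter (fun d => q ∣ d))).choose r ≤ L ^ r :=
      (Nat.choose_le_pow _ _).trans (Nat.pow_le_pow_left h1 r)
    exact_mod_cast h2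
  have hxr : (0 : ℝ) < x := by exact_mod_cast (by omega : 0 < x)
  have hLr : (0 : ℝ) < L := by exact_mod_cast hL1
  -- second moment over the sets of differences
  have hsq : ∀ i, c1 i ^ 2 * (((L : ℝ) ^ r * x / Real.log x ^ (2 * r + 2)) * x) ≤
      ∑ D ∈ 𝒟, (#(AD q (c i) x D) : ℝ) ^ 2 := by
    intro i
    have h1 := hlow i x (hxi i) L (hKi i) hL1 (hLH.trans hHx)
    have h2 : (∑ D ∈ 𝒟, (#(AD q (c i) x D) : ℝ)) ^ 2 ≤ #𝒟 * ∑ D ∈ 𝒟, (#(AD q (c i) x D) : ℝ) ^ 2 :=
      sq_sum_le_card_mul_sum_sq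
    have h3 : 0 ≤ ∑ D ∈ 𝒟, (#(AD q (c i) x D) : ℝ) ^ 2 := sum_nonneg fun D _ => by positivity
    have h4 : 0 < c1 i := hc1 i
    rw [← h𝒟] at h1
    generalize ∑ D ∈ 𝒟, (#(AD q (c i) x D) : ℝ) ^ 2 = S2 at h2 h3 ⊢
    generalize ∑ D ∈ 𝒟, (#(AD q (c i) x D) : ℝ) = S1 at h1 h2
    have h5 : (c1 i * ((L : ℝ) ^ r * x / Real.log x ^ (r + 1))) ^ 2 ≤ S1 ^ 2 :=
      pow_le_pow_left₀ (by positivity) h1 2
    have h6 : (c1 i * ((L : ℝ) ^ r * x / Real.log x ^ (r + 1))) ^ 2 ≤ (L : ℝ) ^ r * S2 :=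
      h5.trans (h2.trans (mul_le_mul_of_nonneg_right hD h3))
    have h7 : (c1 i * ((L : ℝ) ^ r * x / Real.log x ^ (r + 1))) ^ 2 =
        (L : ℝ) ^ r * (c1 i ^ 2 * (((L : ℝ) ^ r * x / Real.log x ^ (2 * r + 2)) * x)) := by
      rw [show 2 * r + 2 = (r + 1) + (r + 1) by ring, pow_add (Real.log x) (r + 1) (r + 1)]
      have z0 : Real.log x ^ (r + 1) ≠ 0 := by positivity
      generalize Real.log x ^ (r + 1) = z at *
      generalize (L : ℝ) ^ r = l at *
      field_simp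
    rw [h7] at h6
    exact le_of_mul_le_mul_left h6 (by positivity)
  -- the cells, for every choice of the differences
  have hcell : (H : ℝ) * ∏ i, ∑ D ∈ 𝒟, (#(AD q (c i) x D) : ℝ) ^ 2 ≤
      4 * 3 ^ m * (x : ℝ) ^ m * ∑ h ∈ (range H).filter (fun h => q ∣ h), ∏ i, (W q r (c i) x L h : ℝ) := by
    have h1 : ∀ δ ∈ Fintype.piFinset (fun _ : ι => 𝒟), (H : ℝ) * ∏ i, (#(AD q (c i) x (δ i)) : ℝ) ^ 2 ≤
        4 * 3 ^ m * (x : ℝ) ^ m * ∑ h ∈ (range H).filter (fun h => q ∣ h), ∏ i,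
          (#((AD q (c i) x (δ i)).filter (fun p => p + h ∈ AD q (c i) x (δ i))) : ℝ) := by
      intro δ _
      have h2 := cells x H (hL1.trans hLH) hHx (fun i => AD q (c i) x (δ i)) (fun i => filter_subset _ _)
      have h3 : ∑ h ∈ range H, ∏ i, #((AD q (c i) x (δ i)).filter (fun p => p + h ∈ AD q (c i) x (δ i))) =
          ∑ h ∈ (range H).filter (fun h => q ∣ h), ∏ i,
            #((AD q (c i) x (δ i)).filter (fun p => p + h ∈ AD q (c i) x (δ i))) := by
        symm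
        apply sum_subset (filter_subset _ _)
        intro h hh hq'
        have hq2 : ¬ q ∣ h := fun hd => hq' (mem_filter.2 ⟨hh, hd⟩)
        obtain ⟨i0⟩ := ‹Nonempty ι›
        apply prod_eq_zero (mem_univ i0)
        rw [card_eq_zero, filter_eq_empty_iff]
        intro p hp hp2
        unfold AD at hp hp2
        rw [mem_filter] at hp hp2
        apply hq2
        have h4 : p % q = (p + h) % q := by rw [hp.2.2.1, hp2.2.2.1]
        have h5 := (Nat.modEq_iff_dvd' (Nat.le_add_right p h)).1 h4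
        rwa [Nat.add_sub_cancel_left] at h5
      rw [h3] at h2
      rw [prod_pow]
      exact_mod_cast h2
    rw [prod_univ_sum, mul_sum]
    refine (sum_le_sum h1).trans ?_
    rw [← mul_sum]
    apply mul_le_mul_of_nonneg_left _ (by positivity)
    rw [sum_comm]
    apply sum_le_sum
    intro h _
    have h3 := prod_univ_sum (fun _ : ι => 𝒟)
      (fun i D => (#((AD q (c i) x D).filter (fun p => p + h ∈ AD q (c i) x D)) : ℝ))
    rw [← h3]
    apply prod_le_prod (fun i _ => sum_nonneg fun D _ => Nat.cast_nonneg _)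
    intro i _
    exact_mod_cast W_ge q r (c i) x L h
  have hprod : (∏ i, c1 i ^ 2) * (((L : ℝ) ^ r * x / Real.log x ^ (2 * r + 2)) ^ m * (x : ℝ) ^ m) ≤
      ∏ i, ∑ D ∈ 𝒟, (#(AD q (c i) x D) : ℝ) ^ 2 := by
    have h1 : (∏ i, c1 i ^ 2) * (((L : ℝ) ^ r * x / Real.log x ^ (2 * r + 2)) ^ m * (x : ℝ) ^ m) =
        ∏ i, (c1 i ^ 2 * (((L : ℝ) ^ r * x / Real.log x ^ (2 * r + 2)) * x)) := by
      rw [prod_mul_distrib, prod_const, card_univ, mul_pow]
    rw [h1]
    apply prod_le_prod _ (fun i _ => hsq i)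
    intro i _
    have := hc1 i
    positivity
  have hfin := (mul_le_mul_of_nonneg_left hprod (Nat.cast_nonneg (α := ℝ) H)).trans hcell
  generalize ∑ h ∈ (range H).filter (fun h => q ∣ h), ∏ i, (W q r (c i) x L h : ℝ) = S at hfin ⊢
  have hxm : (0 : ℝ) < (x : ℝ) ^ m := by positivity
  generalize ((L : ℝ) ^ r * x / Real.log x ^ (2 * r + 2)) ^ m = X at hfin ⊢
  generalize ∏ i, c1 i ^ 2 = Pc at hfin ⊢
  have h4 : (x : ℝ) ^ m * (H * (Pc * X)) ≤ (x : ℝ) ^ m * (4 * 3 ^ m * S) := by linarith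
  have h5 := le_of_mul_le_mul_left h4 hxm
  have h6 : (0 : ℝ) < 4 * 3 ^ m := by positivity
  rw [div_mul_eq_mul_div, div_mul_eq_mul_div, div_le_iff₀ h6]
  linarith

end Pool.Agent.Run7.h756.PH
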