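import Pool.Agent.Run7.h756.PH.Low
import Pool.Agent.Run7.h756.PH.Abs

/-!
# Strings of consecutive elements of one class in the sets of the prime pairs of difference `h`
-/

set_option autoImplicit false

open Finset

namespace Pool.Agent.Run7.h756.PH

open Classical in
/-- the number of the `p ≤ x` of the class `c` which start a string in the set of the prime pairs of difference `h` -/
noncomputable def NN (q r c x L h : ℕ) : ℕ :=
  #((Icc 1 x).filter (fun p => PP h p ∧ p % q = c ∧ Str (PP h) q r L p))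

open Classical in
lemma W_le (q r c x L h : ℕ) : W q r c x L h ≤ NN q r c x L h + (r + 1) * U (r + 1) h x L := by
  unfold W U NN
  have hF : (Icc 1 x).filter (fun p => PP h p ∧ p % q = c) ⊆ (Icc 1 x).filter (fun p => PP h p) := by
    intro p hp
    rw [mem_filter] at hp ⊢
    exact ⟨hp.1, hp.2.1⟩
  calc ∑ p ∈ (Icc 1 x).filter (fun p => PP h p ∧ p % q = c),
        #(powersetCard r ((win (PP h) L p).filter (fun d => q ∣ d)))
      ≤ ∑ p ∈ (Icc 1 x).filter (fun p => PP h p ∧ p % q = c), ((if Str (PP h) q r L p then 1 else 0) +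
          (r + 1) * #(powersetCard (r + 1) (win (PP h) L p))) := by
        apply sum_le_sum
        intro p hp
        exact win_le (mem_filter.1 hp).2.1
    _ = #((Icc 1 x).filter (fun p => PP h p ∧ p % q = c ∧ Str (PP h) q r L p)) +
          (r + 1) * ∑ p ∈ (Icc 1 x).filter (fun p => PP h p ∧ p % q = c),
            #(powersetCard (r + 1) (win (PP h) L p)) := by
        rw [sum_add_distrib, ← mul_sum, ← card_filter, filter_filter]
        congr 3
        ext p
        tauto
    _ ≤ _ := by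
        apply Nat.add_le_add_left
        apply Nat.mul_le_mul_left
        exact sum_le_sum_of_subset hF

open Classical in
lemma W_le_U (q r c x L h : ℕ) : W q r c x L h ≤ U r h x L := by
  unfold W U
  calc ∑ p ∈ (Icc 1 x).filter (fun p => PP h p ∧ p % q = c),
        #(powersetCard r ((win (PP h) L p).filter (fun d => q ∣ d)))
      ≤ ∑ p ∈ (Icc 1 x).filter (fun p => PP h p ∧ p % q = c), #(powersetCard r (win (PP h) L p)) := by
        apply sum_le_sum
        intro p _
        exact card_le_card (powersetCard_mono (filter_subset _ _))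
    _ ≤ _ := by
        apply sum_le_sum_of_subset
        intro p hp
        rw [mem_filter] at hp ⊢
        exact ⟨hp.1, hp.2.1⟩

open Classical in
lemma W_triv (q r c x L h : ℕ) : W q r c x L h ≤ x * L ^ r := by
  unfold W
  calc ∑ p ∈ (Icc 1 x).filter (fun p => PP h p ∧ p % q = c),
        #(powersetCard r ((win (PP h) L p).filter (fun d => q ∣ d)))
      ≤ ∑ p ∈ (Icc 1 x).filter (fun p => PP h p ∧ p % q = c), L ^ r := by
        apply sum_le_sum
        intro p _
        rw [card_powersetCard]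
        refine (Nat.choose_le_pow _ _).trans (Nat.pow_le_pow_left ?_ r)
        refine (card_filter_le _ _).trans ((card_filter_le _ _).trans ?_)
        rw [Nat.card_Icc]
        omega
    _ = #((Icc 1 x).filter (fun p => PP h p ∧ p % q = c)) * L ^ r := by rw [sum_const, smul_eq_mul]
    _ ≤ x * L ^ r := by
        apply Nat.mul_le_mul_right
        refine (card_filter_le _ _).trans ?_
        rw [Nat.card_Icc]
        omega

/-- the expected order of magnitude -/
noncomputable def X (k x L : ℕ) : ℝ := (L : ℝ) ^ k * x / Real.log x ^ (2 * k + 2)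

lemma X_pos {k x L : ℕ} (hx : 2 ≤ x) (hL : 1 ≤ L) : 0 < X k x L := by
  have hlog : 0 < Real.log x := Real.log_pos (by exact_mod_cast hx)
  have h1 : (0 : ℝ) < x := by exact_mod_cast (by omega : 0 < x)
  have h2 : (0 : ℝ) < L := by exact_mod_cast hL
  unfold X
  positivity

lemma moments' (q k e : ℕ) : ∃ C > (0 : ℝ), ∃ x₀ : ℕ, ∀ x : ℕ, x₀ ≤ x → ∀ L H : ℕ, 1 ≤ L → L ≤ H →
    ∑ h ∈ (Ioc L H).filter (fun h => q ∣ h), ((U k h x L : ℝ) / X k x L) ^ e ≤ C * H := by
  rcases Nat.eq_zero_or_pos e with rfl | he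
  · refine ⟨1, one_pos, 0, fun x _ L H _ hLH => ?_⟩
    simp only [pow_zero, sum_const, nsmul_eq_mul, mul_one, one_mul]
    have : #((Ioc L H).filter (fun h => q ∣ h)) ≤ H := by
      refine (card_filter_le _ _).trans ?_
      rw [Nat.card_Ioc]
      omega
    exact_mod_cast this
  · obtain ⟨f, rfl⟩ : ∃ f, e = f + 1 := ⟨e - 1, by omega⟩
    obtain ⟨C, hC, x₀, hm⟩ := moments k f
    refine ⟨C, hC, max x₀ 2, fun x hx L H hL hLH => ?_⟩
    have h1 := hm x ((le_max_left _ _).trans hx) L H hL hLH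
    have hX : 0 < X k x L := X_pos ((le_max_right _ _).trans hx) hL
    calc ∑ h ∈ (Ioc L H).filter (fun h => q ∣ h), ((U k h x L : ℝ) / X k x L) ^ (f + 1)
        ≤ ∑ h ∈ Ioc L H, ((U k h x L : ℝ) / X k x L) ^ (f + 1) :=
          sum_le_sum_of_subset_of_nonneg (filter_subset _ _) (fun h _ _ => by positivity)
      _ = (∑ h ∈ Ioc L H, (U k h x L : ℝ) ^ (f + 1)) / X k x L ^ (f + 1) := by
          rw [sum_div]
          apply sum_congr rfl
          intro h _
          rw [div_pow]
      _ ≤ C * H := by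
          rw [div_le_iff₀ (by positivity)]
          exact h1

/-- the residue classes coprime to `q` -/
abbrev Cl (q : ℕ) : Finset ℕ := (range q).filter (fun a => a.Coprime q)

lemma Cl_card (q : ℕ) : Fintype.card ↥(Cl q) = q.totient := by
  rw [Fintype.card_coe, Nat.totient_eq_card_coprime]
  congr 1
  apply filter_congr
  intro a _
  exact Nat.coprime_comm

theorem main (q r : ℕ) (hq : 0 < q) (lam : ℝ) (hlam : 0 < lam) : ∃ c > (0 : ℝ), ∃ x₀ : ℕ, ∀ x : ℕ, x₀ ≤ x →
    ∀ H : ℕ, Real.log x ^ ((2 * r + 2) * q.totient + 3) ≤ H → H ≤ x → ∃ L : ℕ, (L : ℝ) ≤ lam * Real.log x ^ 2 ∧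
      c * H ≤ #((Icc 1 H).filter (fun h => q ∣ h ∧ ∀ a ∈ Cl q,
        c * (x / Real.log x ^ 2) ≤ NN q r a x L h ∧ c * U 0 h x L ≤ NN q r a x L h)) := by
  classical
  obtain ⟨m, hm⟩ : ∃ m, q.totient = m + 1 := ⟨q.totient - 1, by have := Nat.totient_pos.2 hq; omega⟩
  have hcard : Fintype.card ↥(Cl q) = m + 1 := by rw [Cl_card, hm]
  have hne : Nonempty ↥(Cl q) := Fintype.card_pos_iff.1 (by omega)
  obtain ⟨c0, hc0, K, hK, x1, hlow⟩ := lower (ι := ↥(Cl q)) q r hq (fun i => i.1)
    (fun i => by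
      have := mem_filter.1 i.2
      exact ⟨mem_range.1 this.1, this.2⟩)
  rw [hcard] at hlow
  obtain ⟨C1, hC1, y1, m1⟩ := moments' q r m
  obtain ⟨C2, hC2, y2, m2⟩ := moments' q r (m + 1)
  obtain ⟨C3, hC3, y3, m3⟩ := moments' q r (m + 2)
  obtain ⟨C4, hC4, y4, m4⟩ := moments' q r (2 * (m + 1))
  obtain ⟨C5, hC5, y5, m5⟩ := moments' q (r + 1) (m + 1)
  obtain ⟨C6, hC6, y6, m6⟩ := moments' q 0 (m + 2)
  set C := C1 + C2 + C3 + C4 + C5 + C6 with hCdef
  have hC : 0 < C := by positivity
  obtain ⟨ρ0, hρ0, c2, hc2, M, hM, c3, hc3, habs⟩ := abs_lemma m (c0 / 2) C (by positivity) hC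
  set l := min lam (ρ0 / (r + 1)) with hl
  have hl0 : 0 < l := by rw [hl]; positivity
  have hl1 : l ≤ lam := min_le_left _ _
  have hl2 : (r + 1) * l ≤ ρ0 := by
    have h1 : l ≤ ρ0 / (r + 1) := min_le_right _ _
    rw [le_div_iff₀ (by positivity)] at h1
    linarith
  set s := c2 * (l / 2) ^ r with hs
  have hs0 : 0 < s := by rw [hs]; positivity
  set c := min c3 (min s (s / M)) with hc
  have hcp : 0 < c := by rw [hc]; positivity
  have hcc3 : c ≤ c3 := min_le_left _ _
  have hcs : c ≤ s := (min_le_right _ _).trans (min_le_left _ _)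
  have hcM : c * M ≤ s := by
    have h1 : c ≤ s / M := (min_le_right _ _).trans (min_le_right _ _)
    rwa [le_div_iff₀ hM] at h1
  set Y0 := 1 + l + 2 / l + 2 * K / l + 2 * (l + 1) / c0 with hY0
  have hev : ∀ᶠ x : ℕ in Filter.atTop, Y0 ≤ Real.log x :=
    (Real.tendsto_log_atTop.comp tendsto_natCast_atTop_atTop).eventually_ge_atTop Y0
  obtain ⟨z0, hz0⟩ := Filter.eventually_atTop.1 hev
  refine ⟨c, hcp, z0 + x1 + y1 + y2 + y3 + y4 + y5 + y6 + 2, fun x hx H hH hHx => ?_⟩
  have hy := hz0 x (by omega)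
  set y := Real.log x with hydef
  have a1 : 0 < l := hl0
  have a2 : 0 < 2 / l := by positivity
  have a3 : 0 < 2 * K / l := by positivity
  have a4 : 0 < 2 * (l + 1) / c0 := by positivity
  have hy1 : 1 ≤ y := by linarith
  have hyl : l ≤ y := by linarith
  have hy2 : 2 / l ≤ y := by linarith
  have hyK : 2 * K / l ≤ y := by linarith
  have hyc : 2 * (l + 1) / c0 ≤ y := by linarith
  have hy0 : 0 < y := by linarith
  have hly : 2 ≤ l * y := by rwa [div_le_iff₀ hl0, mul_comm] at hy2
  have hlyy : 2 ≤ l * y ^ 2 := by nlinarith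
  set L := ⌊l * y ^ 2⌋₊ with hL
  have hLu : (L : ℝ) ≤ l * y ^ 2 := Nat.floor_le (by positivity)
  have hLl : l / 2 * y ^ 2 ≤ L := by
    have := Nat.lt_floor_add_one (l * y ^ 2)
    rw [← hL] at this
    linarith
  have hL1 : 1 ≤ L := by
    have : (1 : ℝ) ≤ L := by linarith
    exact_mod_cast this
  have hKL : K * y ≤ L := by
    rw [div_le_iff₀ hl0] at hyK
    nlinarith
  have hLH : L ≤ H := by
    have h1 : (L : ℝ) ≤ H := by
      calc (L : ℝ) ≤ l * y ^ 2 := hLu
        _ ≤ y * y ^ 2 := mul_le_mul_of_nonneg_right hyl (by positivity)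
        _ = y ^ 3 := by ring
        _ ≤ y ^ ((2 * r + 2) * q.totient + 3) := pow_le_pow_right₀ hy1 (by omega)
        _ ≤ H := hH
    exact_mod_cast h1
  have hx2 : 2 ≤ x := by omega
  have hxr : (0 : ℝ) < x := by exact_mod_cast (by omega : 0 < x)
  have hHr : (0 : ℝ) < H := by exact_mod_cast (by omega : 0 < H)
  have hXr : 0 < X r x L := X_pos hx2 hL1
  have hXs : 0 < X (r + 1) x L := X_pos hx2 hL1
  have hX0 : 0 < X 0 x L := X_pos hx2 hL1
  have hratio : X (r + 1) x L = (L / y ^ 2) * X r x L := by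
    unfold X
    rw [show 2 * (r + 1) + 2 = (2 * r + 2) + 2 by ring, pow_add _ (2 * r + 2) 2, pow_succ (L : ℝ) r]
    have e1 : y ^ (2 * r + 2) ≠ 0 := by positivity
    have e2 : y ^ 2 ≠ 0 := by positivity
    generalize y ^ (2 * r + 2) = g at *
    generalize y ^ 2 = g2 at *
    field_simp
  refine ⟨L, hLu.trans (mul_le_mul_of_nonneg_right hl1 (by positivity)), ?_⟩
  set I := (Ioc L H).filter (fun h => q ∣ h) with hI
  -- the lower bound
  have hlow1 := hlow x (by omega) L H hKL hL1 hLH hHx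
  have hlow2 : c0 / 2 * H * X r x L ^ (m + 1) ≤ ∑ h ∈ I, ∏ i : ↥(Cl q), (W q r i.1 x L h : ℝ) := by
    have h1 : ∑ h ∈ (range H).filter (fun h => q ∣ h), ∏ i : ↥(Cl q), (W q r i.1 x L h : ℝ) ≤
        ∑ h ∈ I, ∏ i : ↥(Cl q), (W q r i.1 x L h : ℝ) +
          ∑ h ∈ range (L + 1), ∏ i : ↥(Cl q), (W q r i.1 x L h : ℝ) := by
      rw [← sum_union]
      · apply sum_le_sum_of_subset_of_nonneg
        · intro h hh
          rw [mem_filter, mem_range] at hh
          rw [mem_union, hI, mem_filter, mem_Ioc, mem_range]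
          by_cases hhL : h < L + 1
          · exact Or.inr hhL
          · exact Or.inl ⟨⟨by omega, by omega⟩, hh.2⟩
        · intro h _ _
          exact prod_nonneg fun i _ => Nat.cast_nonneg _
      · rw [disjoint_left]
        intro h hh hh2
        rw [hI, mem_filter, mem_Ioc] at hh
        rw [mem_range] at hh2
        omega
    have h2 : ∑ h ∈ range (L + 1), ∏ i : ↥(Cl q), (W q r i.1 x L h : ℝ) ≤ (L + 1) * ((x : ℝ) * L ^ r) ^ (m + 1) := by
      calc ∑ h ∈ range (L + 1), ∏ i : ↥(Cl q), (W q r i.1 x L h : ℝ)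
          ≤ ∑ h ∈ range (L + 1), ((x : ℝ) * L ^ r) ^ (m + 1) := by
            apply sum_le_sum
            intro h _
            calc ∏ i : ↥(Cl q), (W q r i.1 x L h : ℝ) ≤ ∏ i : ↥(Cl q), ((x : ℝ) * L ^ r) :=
                prod_le_prod (fun i _ => Nat.cast_nonneg _) (fun i _ => by
                  exact_mod_cast W_triv q r i.1 x L h)
              _ = ((x : ℝ) * L ^ r) ^ (m + 1) := by rw [prod_const, card_univ, hcard]
        _ = _ := by rw [sum_const, card_range, nsmul_eq_mul]; push_cast; ring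
    have h3 : (L + 1) * ((x : ℝ) * L ^ r) ^ (m + 1) ≤ c0 / 2 * H * X r x L ^ (m + 1) := by
      have e1 : X r x L ^ (m + 1) = ((x : ℝ) * L ^ r) ^ (m + 1) / y ^ ((2 * r + 2) * (m + 1)) := by
        unfold X
        rw [div_pow, ← pow_mul, mul_comm ((L : ℝ) ^ r)]
      rw [e1, ← mul_div_assoc, le_div_iff₀ (by positivity)]
      have e2 : ((L : ℝ) + 1) * y ^ ((2 * r + 2) * (m + 1)) ≤ c0 / 2 * H := by
        have e3 : (L : ℝ) + 1 ≤ (l + 1) * y ^ 2 := by nlinarith
        have e4 : 2 * (l + 1) ≤ c0 * y := by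
          have := (div_le_iff₀ hc0).1 hyc
          linarith
        calc ((L : ℝ) + 1) * y ^ ((2 * r + 2) * (m + 1))
            ≤ ((l + 1) * y ^ 2) * y ^ ((2 * r + 2) * (m + 1)) := mul_le_mul_of_nonneg_right e3 (by positivity)
          _ ≤ ((c0 / 2 * y) * y ^ 2) * y ^ ((2 * r + 2) * (m + 1)) := by
              apply mul_le_mul_of_nonneg_right _ (by positivity)
              apply mul_le_mul_of_nonneg_right _ (by positivity)
              linarith
          _ = c0 / 2 * y ^ ((2 * r + 2) * q.totient + 3) := by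
              rw [hm, pow_add]
              ring
          _ ≤ c0 / 2 * H := mul_le_mul_of_nonneg_left hH (by positivity)
      calc (L + 1) * ((x : ℝ) * L ^ r) ^ (m + 1) * y ^ ((2 * r + 2) * (m + 1))
          = ((L + 1) * y ^ ((2 * r + 2) * (m + 1))) * ((x : ℝ) * L ^ r) ^ (m + 1) := by ring
        _ ≤ (c0 / 2 * H) * ((x : ℝ) * L ^ r) ^ (m + 1) := mul_le_mul_of_nonneg_right e2 (by positivity)
        _ = _ := by ring
    have h4 : c0 * H * X r x L ^ (m + 1) ≤
        ∑ h ∈ (range H).filter (fun h => q ∣ h), ∏ i : ↥(Cl q), (W q r i.1 x L h : ℝ) := hlow1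
    linarith
  -- normalisation
  have key := habs (ι := ↥(Cl q)) hcard I H hHr (fun i h => (W q r i.1 x L h : ℝ) / X r x L)
    (fun i h => (NN q r i.1 x L h : ℝ) / X r x L) (fun h => (U r h x L : ℝ) / X r x L)
    (fun h => (U (r + 1) h x L : ℝ) / X (r + 1) x L) (fun h => (U 0 h x L : ℝ) / X 0 x L)
    ((r + 1) * (L / y ^ 2)) (by positivity) (by
      refine le_trans ?_ hl2
      apply mul_le_mul_of_nonneg_left _ (by positivity)
      rw [div_le_iff₀ (by positivity)]
      exact hLu) (fun i h _ => by positivity) (fun h _ => by positivity) (fun h _ => by positivity)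
    (fun h _ => by positivity) (fun i h _ => by
      apply div_le_div_of_nonneg_right _ hXr.le
      exact_mod_cast W_le_U q r i.1 x L h) (fun i h _ => by
      have h1 : (W q r i.1 x L h : ℝ) ≤ NN q r i.1 x L h + (r + 1) * U (r + 1) h x L := by
        exact_mod_cast W_le q r i.1 x L h
      rw [hratio]
      have hLp : (0 : ℝ) < L / y ^ 2 := by
        have : (0 : ℝ) < L := by exact_mod_cast hL1
        positivity
      have h2 : ((r : ℝ) + 1) * (L / y ^ 2) * ((U (r + 1) h x L : ℝ) / (L / y ^ 2 * X r x L)) =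
          (r + 1) * U (r + 1) h x L / X r x L := by
        generalize (L : ℝ) / y ^ 2 = g at *
        field_simp
      rw [h2, ← add_div]
      exact div_le_div_of_nonneg_right h1 hXr.le) (by
      have h1 : ∀ h, ∏ i : ↥(Cl q), ((W q r i.1 x L h : ℝ) / X r x L) =
          (∏ i : ↥(Cl q), (W q r i.1 x L h : ℝ)) / X r x L ^ (m + 1) := by
        intro h
        rw [prod_div_distrib, prod_const, card_univ, hcard]
      rw [sum_congr rfl (fun h _ => h1 h), ← sum_div, le_div_iff₀ (by positivity)]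
      exact hlow2)
    ((m1 x (by omega) L H hL1 hLH).trans (mul_le_mul_of_nonneg_right (by linarith) hHr.le))
    ((m2 x (by omega) L H hL1 hLH).trans (mul_le_mul_of_nonneg_right (by linarith) hHr.le))
    ((m3 x (by omega) L H hL1 hLH).trans (mul_le_mul_of_nonneg_right (by linarith) hHr.le))
    ((m4 x (by omega) L H hL1 hLH).trans (mul_le_mul_of_nonneg_right (by linarith) hHr.le))
    ((m5 x (by omega) L H hL1 hLH).trans (mul_le_mul_of_nonneg_right (by linarith) hHr.le))
    ((m6 x (by omega) L H hL1 hLH).trans (mul_le_mul_of_nonneg_right (by linarith) hHr.le))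
  have hXlow : (l / 2) ^ r * (x / y ^ 2) ≤ X r x L := by
    unfold X
    have h1 : (l / 2 * y ^ 2) ^ r ≤ (L : ℝ) ^ r := pow_le_pow_left₀ (by positivity) hLl r
    rw [mul_pow, ← pow_mul] at h1
    rw [pow_add, ← mul_div_assoc, div_le_div_iff₀ (by positivity) (by positivity)]
    calc (l / 2) ^ r * x * (y ^ (2 * r) * y ^ 2) = ((l / 2) ^ r * y ^ (2 * r)) * (x * y ^ 2) := by ring
      _ ≤ (L : ℝ) ^ r * (x * y ^ 2) := mul_le_mul_of_nonneg_right h1 (by positivity)
      _ = _ := by ring
  have hX0e : X 0 x L = x / y ^ 2 := by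
    unfold X
    rw [pow_zero, one_mul]
  calc c * H ≤ c3 * H := mul_le_mul_of_nonneg_right hcc3 hHr.le
    _ ≤ _ := key
    _ ≤ _ := by
        norm_cast
        apply card_le_card
        intro h hh
        rw [mem_filter, hI, mem_filter, mem_Ioc] at hh
        obtain ⟨⟨h1, h2⟩, h3, h4⟩ := hh
        rw [mem_filter, mem_Icc]
        refine ⟨⟨by omega, h1.2⟩, h2, ?_⟩
        intro a ha
        have h5 := h3 ⟨a, ha⟩
        simp only at h5
        rw [le_div_iff₀ hXr] at h5
        rw [div_le_iff₀ hX0, hX0e] at h4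
        have h6 : s * (x / y ^ 2) ≤ NN q r a x L h := by
          refine le_trans ?_ h5
          rw [hs, mul_assoc]
          exact mul_le_mul_of_nonneg_left hXlow hc2.le
        have h7 : (0 : ℝ) ≤ x / y ^ 2 := by positivity
        constructor
        · exact (mul_le_mul_of_nonneg_right hcs h7).trans h6
        · calc c * (U 0 h x L : ℝ) ≤ c * (M * (x / y ^ 2)) := mul_le_mul_of_nonneg_left h4 hcp.le
            _ = (c * M) * (x / y ^ 2) := by ring
            _ ≤ s * (x / y ^ 2) := mul_le_mul_of_nonneg_right hcM h7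
            _ ≤ _ := h6

end Pool.Agent.Run7.h756.PH
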