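import Pool.Agent.H312R2.Avg
import Pool.Agent.Run7.h756.PH.Comb

/-!
# Moments, over the difference `h`, of the number of configurations of prime pairs of difference `h`

For `k`, `e` and all `L ≤ H`: the sum over `L < h ≤ H` of the `e`-th power of the number of pairs `(p, D)`, `p ≤ x`,
`D` a `k`-element subset of `(0, L]`, such that `p`, `p + h` and `p + d`, `p + d + h` (`d ∈ D`) are primes, is at most
`C H (L ^ k x / (log x) ^ (2 k + 2)) ^ e`.
-/

set_option autoImplicit false

open Finset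

namespace Pool.Agent.Run7.h756.PH

open Pool.Agent.H646 (rat)
open Pool.Agent.H646.TuplesM (tuple_bound rat_ge_one rat_nonneg prod_le_sum_pow)
open Pool.Agent.H646.MomentM (rat_moment)
open Pool.Agent.H312R2 (avg_one)

/-- the primes `p` for which `p + h` is prime -/
def PP (h p : ℕ) : Prop := p.Prime ∧ (p + h).Prime

open Classical in
/-- number of configurations -/
noncomputable def U (k h x L : ℕ) : ℕ :=
  ∑ p ∈ (Icc 1 x).filter (fun p => PP h p), #(powersetCard k (win (PP h) L p))

/-- the increasing enumeration of `{0} ∪ D` -/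
noncomputable def en (k : ℕ) (D : Finset ℕ) : Fin (k + 1) → ℕ :=
  if h : #(insert 0 D) = k + 1 then (insert 0 D).orderEmbOfFin h else fun _ => 0

lemma card_ins {k L : ℕ} {D : Finset ℕ} (hD : D ∈ powersetCard k (Icc 1 L)) : #(insert 0 D) = k + 1 := by
  rw [mem_powersetCard] at hD
  rw [card_insert_of_notMem, hD.2]
  intro h
  have := mem_Icc.1 (hD.1 h)
  omega

lemma en_mono {k L : ℕ} {D : Finset ℕ} (hD : D ∈ powersetCard k (Icc 1 L)) : StrictMono (en k D) := by
  unfold en
  rw [dif_pos (card_ins hD)]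
  exact (Finset.orderEmbOfFin _ _).strictMono

lemma en_mem {k L : ℕ} {D : Finset ℕ} (hD : D ∈ powersetCard k (Icc 1 L)) (j : Fin (k + 1)) :
    en k D j ∈ insert 0 D := by
  unfold en
  rw [dif_pos (card_ins hD)]
  exact Finset.orderEmbOfFin_mem _ _ j

lemma en_image {k L : ℕ} {D : Finset ℕ} (hD : D ∈ powersetCard k (Icc 1 L)) :
    univ.image (en k D) = insert 0 D := by
  unfold en
  rw [dif_pos (card_ins hD)]
  exact Finset.image_orderEmbOfFin_univ _ _

lemma en_le {k L : ℕ} {D : Finset ℕ} (hD : D ∈ powersetCard k (Icc 1 L)) (j : Fin (k + 1)) :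
    en k D j ≤ L := by
  have h := en_mem hD j
  rw [mem_insert] at h
  rcases h with h | h
  · omega
  · exact (mem_Icc.1 ((mem_powersetCard.1 hD).1 h)).2

lemma en_zero {k L : ℕ} {D : Finset ℕ} (hD : D ∈ powersetCard k (Icc 1 L)) : en k D 0 = 0 := by
  have h : (0 : ℕ) ∈ univ.image (en k D) := by rw [en_image hD]; exact mem_insert_self _ _
  obtain ⟨j, _, hj⟩ := mem_image.1 h
  have : en k D 0 ≤ en k D j := (en_mono hD).monotone (Fin.zero_le _)
  omega

lemma en_inj {k L : ℕ} {D D' : Finset ℕ} (hD : D ∈ powersetCard k (Icc 1 L))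
    (hD' : D' ∈ powersetCard k (Icc 1 L)) (h : en k D = en k D') : D = D' := by
  have h1 : insert 0 D = insert 0 D' := by rw [← en_image hD, ← en_image hD', h]
  have h2 : ∀ E ∈ powersetCard k (Icc 1 L), (insert 0 E).erase 0 = E := by
    intro E hE
    apply erase_insert
    intro h0
    have := mem_Icc.1 ((mem_powersetCard.1 hE).1 h0)
    omega
  rw [← h2 D hD, ← h2 D' hD', h1]

/-- average over the sets `D` of a power of `n / φ n` at a difference -/
lemma avg_same (k A : ℕ) (C : ℝ) (hC : ∀ N : ℕ, ∑ n ∈ Icc 1 N, rat n ^ A ≤ C * N) (L : ℕ)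
    (i j : Fin (k + 1)) (hij : i < j) :
    ∑ D ∈ powersetCard k (Icc 1 L), rat (en k D j - en k D i) ^ A ≤ C * ((L + 1) ^ k : ℕ) := by
  classical
  set T := (powersetCard k (Icc 1 L)).image (en k) with hT
  have h1 : ∑ D ∈ powersetCard k (Icc 1 L), rat (en k D j - en k D i) ^ A =
      ∑ u ∈ T, rat (u j - u i) ^ A := by
    rw [hT, sum_image]
    intro D hD D' hD' h
    exact en_inj (mem_coe.1 hD) (mem_coe.1 hD') h
  rw [h1]
  set Dv : Fin (k + 1) → ℕ := fun l => if l = 0 then 1 else L + 1 with hDv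
  have hj0 : j ≠ 0 := by
    rintro rfl
    exact absurd hij (Fin.not_lt_zero i)
  refine (avg_one A C hC Dv T ?_ (fun u => u j - u i) j (L + 1) ?_ ?_).trans ?_
  · intro u hu l
    obtain ⟨D, hD, rfl⟩ := mem_image.1 hu
    rw [hDv]
    simp only
    split_ifs with hl
    · rw [hl, en_zero hD]; omega
    · have := en_le hD l
      omega
  · intro u hu
    obtain ⟨D, hD, rfl⟩ := mem_image.1 hu
    have h2 := en_mono hD hij
    have h3 := en_le hD j
    omega
  · intro u hu v hv huv h
    obtain ⟨D, hD, rfl⟩ := mem_image.1 hu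
    obtain ⟨D', hD', rfl⟩ := mem_image.1 hv
    have h2 := en_mono hD hij
    have h3 := en_mono hD' hij
    have h4 := huv i hij.ne
    omega
  · apply le_of_eq
    congr 1
    have h5 : (∏ l, (if l = j then 1 else Dv l)) * (L + 1) = (L + 1) ^ k := by
      have h6 : (∏ l, (if l = j then 1 else Dv l)) * (L + 1) = ∏ l, Dv l := by
        rw [← mul_prod_erase univ Dv (mem_univ j), ← mul_prod_erase univ (fun l => if l = j then 1 else Dv l)
          (mem_univ j)]
        have h7 : Dv j = L + 1 := by rw [hDv]; simp only; rw [if_neg hj0]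
        rw [h7, if_pos rfl]
        rw [prod_congr rfl (fun l hl => if_neg (ne_of_mem_erase hl))]
        ring
      rw [h6, Fin.prod_univ_succ, hDv]
      simp
    exact_mod_cast h5

/-- average over the differences `h` -/
lemma avg_cross (A : ℕ) (C : ℝ) (hC0 : 0 ≤ C) (hC : ∀ N : ℕ, ∑ n ∈ Icc 1 N, rat n ^ A ≤ C * N)
    (L H a b : ℕ) (hLH : L ≤ H) (ha : a ≤ L) (hb : b ≤ L) :
    ∑ h ∈ Ioc L H, rat (h + a - b) ^ A ≤ C * (2 * H) := by
  have h1 : ∑ h ∈ Ioc L H, rat (h + a - b) ^ A ≤ ∑ n ∈ Icc 1 (2 * H), rat n ^ A := by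
    apply Pool.Agent.H646.TuplesM.sum_le_of_inj (Ioc L H) (fun h => h + a - b) (Icc 1 (2 * H))
      (fun n => rat n ^ A) (fun n => pow_nonneg (rat_nonneg _) _)
    · intro h hh
      rw [mem_Ioc] at hh
      rw [mem_Icc]
      omega
    · intro h hh h' hh' heq
      rw [mem_Ioc] at hh hh'
      omega
  refine (h1.trans (hC _)).trans (le_of_eq ?_)
  push_cast
  ring

/-- all the shifts -/
noncomputable def dd (k h : ℕ) (D : Finset ℕ) : Fin ((k + 1) + (k + 1)) → ℕ :=
  Fin.append (en k D) (fun j => h + en k D j)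

lemma dd_mono {k L h : ℕ} {D : Finset ℕ} (hD : D ∈ powersetCard k (Icc 1 L)) (hh : L < h) :
    StrictMono (dd k h D) := by
  intro i j
  refine Fin.addCases (fun i => ?_) (fun i => ?_) i <;> refine Fin.addCases (fun j => ?_) (fun j => ?_) j
  · intro hij
    unfold dd
    rw [Fin.append_left, Fin.append_left]
    exact en_mono hD (by rw [Fin.lt_def] at hij ⊢; simpa using hij)
  · intro _
    unfold dd
    rw [Fin.append_left, Fin.append_right]
    have := en_le hD i
    omega
  · intro hij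
    exfalso
    rw [Fin.lt_def] at hij
    simp at hij
    have := j.2
    omega
  · intro hij
    unfold dd
    rw [Fin.append_right, Fin.append_right]
    have := en_mono hD (show i < j by rw [Fin.lt_def] at hij ⊢; simpa using hij)
    omega

/-- average of the arithmetic factor -/
lemma avg_all (k A : ℕ) : ∃ C > (0 : ℝ), ∀ L H : ℕ, 1 ≤ L → L ≤ H →
    ∑ h ∈ Ioc L H, ∑ D ∈ powersetCard k (Icc 1 L),
      (∏ q ∈ (univ : Finset (Fin ((k + 1) + (k + 1)) × Fin ((k + 1) + (k + 1)))) with q.1 < q.2,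
        rat (dd k h D q.2 - dd k h D q.1) ^ A) ≤ C * (H * L ^ k) := by
  classical
  set Q := (univ : Finset (Fin ((k + 1) + (k + 1)) × Fin ((k + 1) + (k + 1)))).filter (fun q => q.1 < q.2) with hQ
  have hQn : Q.Nonempty := ⟨(⟨0, by omega⟩, ⟨1, by omega⟩), by
    rw [hQ, mem_filter]; exact ⟨mem_univ _, by rw [Fin.lt_def]; simp⟩⟩
  obtain ⟨C, hC0, hC⟩ := rat_moment (A * #Q)
  refine ⟨C * 2 ^ (k + 1) * #Q, by have := card_pos.2 hQn; positivity, ?_⟩
  intro L H hL hLH
  have hLk : (((L + 1) ^ k : ℕ) : ℝ) ≤ 2 ^ k * (L : ℝ) ^ k := by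
    rw [← mul_pow]
    push_cast
    have h1 : (1 : ℝ) ≤ L := by exact_mod_cast hL
    gcongr
    linarith
  have key : ∀ q ∈ Q, ∑ h ∈ Ioc L H, ∑ D ∈ powersetCard k (Icc 1 L),
      rat (dd k h D q.2 - dd k h D q.1) ^ (A * #Q) ≤ C * 2 ^ (k + 1) * (H * L ^ k) := by
    rintro ⟨q1, q2⟩ hq
    rw [hQ, mem_filter] at hq
    have hlt : q1 < q2 := hq.2
    simp only
    clear hq
    have hH0 : (0 : ℝ) ≤ H := Nat.cast_nonneg _
    have same : ∀ (i j : Fin (k + 1)), i < j → ∑ h ∈ Ioc L H, ∑ D ∈ powersetCard k (Icc 1 L),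
        rat (en k D j - en k D i) ^ (A * #Q) ≤ C * 2 ^ (k + 1) * (H * L ^ k) := by
      intro i j hij
      rw [sum_const, nsmul_eq_mul, Nat.card_Ioc]
      have h1 := avg_same k (A * #Q) C hC L i j hij
      have h2 : (((H - L : ℕ) : ℝ)) ≤ H := by exact_mod_cast Nat.sub_le _ _
      have h3 : 0 ≤ ∑ D ∈ powersetCard k (Icc 1 L), rat (en k D j - en k D i) ^ (A * #Q) :=
        sum_nonneg fun D _ => pow_nonneg (rat_nonneg _) _
      calc ((H - L : ℕ) : ℝ) * ∑ D ∈ powersetCard k (Icc 1 L), rat (en k D j - en k D i) ^ (A * #Q)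
          ≤ H * (C * (2 ^ k * (L : ℝ) ^ k)) := by
            apply mul_le_mul h2 _ h3 hH0
            exact h1.trans (mul_le_mul_of_nonneg_left hLk hC0.le)
        _ ≤ C * 2 ^ (k + 1) * (H * L ^ k) := by
            rw [pow_succ]
            have : 0 ≤ C * 2 ^ k * (H * (L : ℝ) ^ k) := by positivity
            nlinarith
    revert hlt
    refine Fin.addCases (fun i => ?_) (fun i => ?_) q1 <;>
      refine Fin.addCases (fun j => ?_) (fun j => ?_) q2
    · intro hij
      have hij' : i < j := by rw [Fin.lt_def] at hij ⊢; simpa using hij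
      refine le_trans (le_of_eq ?_) (same i j hij')
      apply sum_congr rfl
      intro h _
      apply sum_congr rfl
      intro D _
      unfold dd
      rw [Fin.append_left, Fin.append_left]
    · intro _
      rw [sum_comm]
      calc ∑ D ∈ powersetCard k (Icc 1 L), ∑ h ∈ Ioc L H,
            rat (dd k h D (Fin.natAdd (k + 1) j) - dd k h D (Fin.castAdd (k + 1) i)) ^ (A * #Q)
          ≤ ∑ D ∈ powersetCard k (Icc 1 L), C * (2 * H) := by
            apply sum_le_sum
            intro D hD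
            refine le_trans (le_of_eq ?_) (avg_cross (A * #Q) C hC0.le hC L H (en k D j) (en k D i) hLH
              (en_le hD j) (en_le hD i))
            apply sum_congr rfl
            intro h _
            unfold dd
            rw [Fin.append_left, Fin.append_right]
        _ = (L.choose k : ℝ) * (C * (2 * H)) := by
            rw [sum_const, nsmul_eq_mul, card_powersetCard, Nat.card_Icc]
            simp
        _ ≤ (L : ℝ) ^ k * (C * (2 * H)) := by
            gcongr
            exact_mod_cast Nat.choose_le_pow L k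
        _ ≤ C * 2 ^ (k + 1) * (H * L ^ k) := by
            rw [pow_succ]
            have h1 : 0 ≤ C * (H * (L : ℝ) ^ k) := by positivity
            have h2 : (1 : ℝ) ≤ 2 ^ k := one_le_pow₀ (by norm_num)
            nlinarith
    · intro hij
      exfalso
      rw [Fin.lt_def] at hij
      simp at hij
      have := j.2
      omega
    · intro hij
      have hij' : i < j := by rw [Fin.lt_def] at hij ⊢; simpa using hij
      refine le_trans (le_of_eq ?_) (same i j hij')
      apply sum_congr rfl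
      intro h _
      apply sum_congr rfl
      intro D _
      unfold dd
      rw [Fin.append_right, Fin.append_right, Nat.add_sub_add_left]
  calc ∑ h ∈ Ioc L H, ∑ D ∈ powersetCard k (Icc 1 L), (∏ q ∈ Q, rat (dd k h D q.2 - dd k h D q.1) ^ A)
      ≤ ∑ h ∈ Ioc L H, ∑ D ∈ powersetCard k (Icc 1 L), ∑ q ∈ Q,
          rat (dd k h D q.2 - dd k h D q.1) ^ (A * #Q) := by
        apply sum_le_sum
        intro h hh
        apply sum_le_sum
        intro D hD
        refine (prod_le_sum_pow Q (fun q => rat (dd k h D q.2 - dd k h D q.1) ^ A) ?_ hQn).trans ?_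
        · intro q hq
          have h1 := dd_mono hD (mem_Ioc.1 hh).1 (mem_filter.1 hq).2
          exact one_le_pow₀ (rat_ge_one (by omega))
        · apply le_of_eq
          apply sum_congr rfl
          intro q _
          rw [← pow_mul]
    _ = ∑ q ∈ Q, ∑ h ∈ Ioc L H, ∑ D ∈ powersetCard k (Icc 1 L),
          rat (dd k h D q.2 - dd k h D q.1) ^ (A * #Q) := by
        rw [sum_comm' (s := Q) (t := fun _ => Ioc L H) (t' := Ioc L H) (s' := fun _ => Q) (by intros; tauto)]
        apply sum_congr rfl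
        intro h _
        rw [sum_comm]
    _ ≤ ∑ q ∈ Q, C * 2 ^ (k + 1) * (H * L ^ k) := sum_le_sum key
    _ = C * 2 ^ (k + 1) * #Q * (H * L ^ k) := by
        rw [sum_const, nsmul_eq_mul]; ring

open Classical in
lemma U_eq (k h x L : ℕ) : U k h x L = ∑ D ∈ powersetCard k (Icc 1 L),
    #((Icc 1 x).filter (fun p => PP h p ∧ ∀ d ∈ D, PP h (p + d))) := by
  unfold U
  have h1 : ∀ p, powersetCard k (win (PP h) L p) =
      (powersetCard k (Icc 1 L)).filter (fun D => ∀ d ∈ D, PP h (p + d)) := by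
    intro p
    ext D
    rw [mem_powersetCard, mem_filter, mem_powersetCard]
    constructor
    · rintro ⟨h2, h3⟩
      exact ⟨⟨fun d hd => (mem_filter.1 (h2 hd)).1, h3⟩, fun d hd => (mem_filter.1 (h2 hd)).2⟩
    · rintro ⟨⟨h2, h3⟩, h4⟩
      exact ⟨fun d hd => mem_filter.2 ⟨h2 hd, h4 d hd⟩, h3⟩
  have h2 : ∀ p, #(powersetCard k (win (PP h) L p)) =
      ∑ D ∈ powersetCard k (Icc 1 L), if ∀ d ∈ D, PP h (p + d) then 1 else 0 := by
    intro p
    rw [h1, card_filter]
  rw [sum_congr rfl (fun p _ => h2 p), sum_comm]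
  apply sum_congr rfl
  intro D _
  rw [← filter_filter, card_filter]

theorem moments (k e : ℕ) : ∃ C > (0 : ℝ), ∃ x₀ : ℕ, ∀ x : ℕ, x₀ ≤ x → ∀ L H : ℕ, 1 ≤ L → L ≤ H →
    ∑ h ∈ Ioc L H, (U k h x L : ℝ) ^ (e + 1) ≤
      C * H * ((L : ℝ) ^ k * x / Real.log x ^ (2 * k + 2)) ^ (e + 1) := by
  classical
  obtain ⟨C1, hC1, A, x₀, hb⟩ := tuple_bound ((k + 1) + (k + 1)) (by omega)
  obtain ⟨C2, hC2, hav⟩ := avg_all k (A * (e + 1))
  refine ⟨C2 * C1 ^ (e + 1), by positivity, x₀, fun x hx L H hL hLH => ?_⟩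
  set Q := (univ : Finset (Fin ((k + 1) + (k + 1)) × Fin ((k + 1) + (k + 1)))).filter (fun q => q.1 < q.2) with hQ
  set Y : ℝ := C1 * x / Real.log x ^ ((k + 1) + (k + 1)) with hY
  have hlog : 0 ≤ Real.log x := Real.log_natCast_nonneg x
  have hY0 : 0 ≤ Y := by rw [hY]; positivity
  have h1 : ∀ h ∈ Ioc L H, (U k h x L : ℝ) ^ (e + 1) ≤ ((L : ℝ) ^ k) ^ e * ∑ D ∈ powersetCard k (Icc 1 L),
      Y ^ (e + 1) * ∏ q ∈ Q, rat (dd k h D q.2 - dd k h D q.1) ^ (A * (e + 1)) := by
    intro h hh
    have h2 : ∀ D ∈ powersetCard k (Icc 1 L),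
        (#((Icc 1 x).filter (fun p => PP h p ∧ ∀ d ∈ D, PP h (p + d))) : ℝ) ≤
          Y * ∏ q ∈ Q, rat (dd k h D q.2 - dd k h D q.1) ^ A := by
      intro D hD
      refine le_trans ?_ (hb x hx (dd k h D) (dd_mono hD (mem_Ioc.1 hh).1))
      norm_cast
      apply card_le_card
      intro p hp
      rw [mem_filter] at hp ⊢
      refine ⟨hp.1, ?_⟩
      have h3 : ∀ j : Fin (k + 1), PP h (p + en k D j) := by
        intro j
        have h4 := en_mem hD j
        rw [mem_insert] at h4
        rcases h4 with h4 | h4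
        · rw [h4]; exact hp.2.1
        · exact hp.2.2 _ h4
      intro j
      refine Fin.addCases (fun j => ?_) (fun j => ?_) j
      · unfold dd
        rw [Fin.append_left]
        exact (h3 j).1
      · unfold dd
        rw [Fin.append_right]
        have := (h3 j).2
        rwa [show p + (h + en k D j) = p + en k D j + h by ring]
    rw [U_eq]
    push_cast
    refine (pow_sum_le_card_mul_sum_pow (fun D _ => Nat.cast_nonneg _) e).trans ?_
    apply mul_le_mul
    · apply pow_le_pow_left₀ (Nat.cast_nonneg _)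
      rw [card_powersetCard, Nat.card_Icc]
      simp only [Nat.add_sub_cancel]
      exact_mod_cast Nat.choose_le_pow L k
    · apply sum_le_sum
      intro D hD
      calc (#((Icc 1 x).filter (fun p => PP h p ∧ ∀ d ∈ D, PP h (p + d))) : ℝ) ^ (e + 1)
          ≤ (Y * ∏ q ∈ Q, rat (dd k h D q.2 - dd k h D q.1) ^ A) ^ (e + 1) :=
            pow_le_pow_left₀ (Nat.cast_nonneg _) (h2 D hD) _
        _ = Y ^ (e + 1) * ∏ q ∈ Q, rat (dd k h D q.2 - dd k h D q.1) ^ (A * (e + 1)) := by
            rw [mul_pow, ← prod_pow]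
            congr 1
            apply prod_congr rfl
            intro q _
            rw [← pow_mul]
    · exact sum_nonneg fun D _ => pow_nonneg (Nat.cast_nonneg _) _
    · positivity
  calc ∑ h ∈ Ioc L H, (U k h x L : ℝ) ^ (e + 1)
      ≤ ∑ h ∈ Ioc L H, ((L : ℝ) ^ k) ^ e * ∑ D ∈ powersetCard k (Icc 1 L),
          Y ^ (e + 1) * ∏ q ∈ Q, rat (dd k h D q.2 - dd k h D q.1) ^ (A * (e + 1)) := sum_le_sum h1
    _ = ((L : ℝ) ^ k) ^ e * Y ^ (e + 1) * ∑ h ∈ Ioc L H, ∑ D ∈ powersetCard k (Icc 1 L),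
          ∏ q ∈ Q, rat (dd k h D q.2 - dd k h D q.1) ^ (A * (e + 1)) := by
        rw [mul_sum]
        apply sum_congr rfl
        intro h _
        rw [← mul_sum, mul_assoc]
    _ ≤ ((L : ℝ) ^ k) ^ e * Y ^ (e + 1) * (C2 * (H * L ^ k)) := by
        apply mul_le_mul_of_nonneg_left (hav L H hL hLH)
        positivity
    _ = C2 * C1 ^ (e + 1) * H * ((L : ℝ) ^ k * x / Real.log x ^ (2 * k + 2)) ^ (e + 1) := by
        rw [hY, show (k + 1) + (k + 1) = 2 * k + 2 by ring]
        rw [show C1 * (x : ℝ) / Real.log x ^ (2 * k + 2) = C1 * (x / Real.log x ^ (2 * k + 2)) by ring,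
          show (L : ℝ) ^ k * x / Real.log x ^ (2 * k + 2) = L ^ k * (x / Real.log x ^ (2 * k + 2)) by ring,
          mul_pow, mul_pow ((L : ℝ) ^ k)]
        ring

end Pool.Agent.Run7.h756.PH
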